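import Pool.Agent.X232.CF.E.Red
set_option autoImplicit false

/-!
Loops on the curve `z + 1/z = c x² + t` which avoid the zeros of a given function.
-/

namespace Pool.Agent.X232.CF.E

open Polynomial Metric MeasureTheory

open Pool.Agent.TH826.MK (Torus symb circ norm_circ contDiff_circ circ_add_one one_lin wd KQ)

open Pool.Agent.TH826.HD Pool.Agent.TH826.UH

open Pool.Agent.TH690.UR (wn Disc)

open Pool.Agent.TH690.UE

open Pool.Agent.X232.CU (Av)

open scoped Real ComplexConjugate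

variable {K : Type*} [Field K] {s : K →+* ℂ} {c t p q : K} {m : ℂ} {ρ : ℝ}

/-- The loop for a given radius. -/
theorem exists_loop_radius (h : Side s c t p q m ρ) (hp : Spc s (c * p ^ 2 + t))
    (hq : Spc s (c * q ^ 2 + t)) : ∃ η : ℝ, 0 < η ∧ ∀ R : ℝ, 1 < R → R + R⁻¹ < 2 + η →
    ∃ X : ℝ → ℂ, LoopOn s c t X (circ R) ∧ 0 < dpr s X (circ R) p * dpr s X (circ R) q := by
  obtain ⟨η, H⟩ := h.sepd
  obtain ⟨x, han, hdisc, hprod, -⟩ := H.exists_branches
  refine ⟨η, H.eta, fun R hR hRη => ?_⟩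
  have hR0 : 0 < R := one_pos.trans hR
  have hz := nz_circ hR0
  set u : ℝ → ℂ := fun t => circ R t + (circ R t)⁻¹ with hu
  have hucd : ContDiff ℝ 2 u := (contDiff_circ R).add ((contDiff_circ R).inv hz.ne_zero)
  have hub : ∀ t, u t ∈ ball (0 : ℂ) (2 + η) := by
    intro t
    rw [mem_ball_zero_iff]
    refine (norm_add_le _ _).trans_lt ?_
    rw [norm_inv, norm_circ hR0.le]
    exact hRη
  have hper : ∀ t, u (t + 1) = u t := fun t => by
    simp only [hu, circ_add_one]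
  set Y : ℝ → ℂ := fun y => x 0 (u y) with hY
  have hYcd : ContDiff ℝ 2 Y := by
    rw [contDiff_iff_contDiffAt]
    intro t
    exact ((han 0 _ (hub t)).contDiffAt.restrict_scalars ℝ).comp t hucd.contDiffAt
  have hYper : ∀ t, Y (t + 1) = Y t := fun t => by
    simp only [hY, hper]
  have hYd : ∀ t, ‖Y t - m‖ < ρ := fun y => hdisc 0 _ (hub y)
  have hval : ∀ y, s c * Y y ^ 2 + s t = u y := by
    intro y
    have h1 := eval_map_sub (hprod _ (hub y)) (Y y)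
    rw [Finset.prod_eq_zero (Finset.mem_univ 0) (by simp [hY]), mul_zero, eval₂_qf] at h1
    exact sub_eq_zero.1 h1
  have hdiff : ∀ w : K, ∀ ζ : ℂ, s (c * w ^ 2 + t) = ζ + ζ⁻¹ → ∀ y,
      s c * ((Y y - s w) * (Y y - s (-w))) = circ R y + (circ R y)⁻¹ - (ζ + ζ⁻¹) := by
    intro w ζ hζ' y
    have h3 := hval y
    have h4 : u y = circ R y + (circ R y)⁻¹ := rfl
    rw [← h4, ← h3, ← hζ']
    simp only [map_add, map_mul, map_pow, map_neg]
    ring
  have hne : ∀ w : K, Spc s (c * w ^ 2 + t) → ∀ y, Y y ≠ s w := by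
    intro w hw y h
    obtain ⟨ζ, hζ, hζ'⟩ := hw
    have h1 := hdiff w ζ hζ' y
    rw [h, sub_self, zero_mul, mul_zero] at h1
    exact (wn_joukowski hR hζ).1.ne_zero y h1.symm
  have hLoop : LoopOn s c t Y (circ R) := by
    refine ⟨hYcd, hz, hYper, circ_add_one R, fun y => ?_, hne⟩
    rw [hval y]
    have h2 : circ R y * (circ R y)⁻¹ = 1 := mul_inv_cancel₀ (hz.ne_zero y)
    have h4 : u y = circ R y + (circ R y)⁻¹ := rfl
    rw [h4]
    linear_combination -h2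
  refine ⟨Y, hLoop, ?_⟩
  have nY : ∀ w : K, Spc s (c * w ^ 2 + t) → NZ fun y => Y y - s w := fun w hw =>
    ⟨hYcd.sub contDiff_const, fun y => sub_ne_zero.2 (hne w hw y)⟩
  have hc0 : s c ≠ 0 := h.cne
  have key : ∀ w : K, Spc s (c * w ^ 2 + t) → ρ * ‖s w‖ ≤ (m * conj (s w)).re →
      0 < dpr s Y (circ R) w := by
    intro w hw hside
    have hw' : Spc s (c * (-w) ^ 2 + t) := by rwa [neg_sq]
    have n1 := nY w hw
    have n2 := nY (-w) hw'
    have hdisc' : Disc Y m (s (-w)) ρ :=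
      ⟨hYcd, hYper, hYd, far_side h.pos.le h.half hside⟩
    have w2 : wn (fun y => Y y - s (-w)) = 0 := hdisc'.wn
    have w1 : wn (fun y => Y y - s w) = 2 * π := by
      obtain ⟨ζ, hζ, hζ'⟩ := hw
      have hcc : NZ fun _ : ℝ => s c := ⟨contDiff_const, fun _ => hc0⟩
      have h1 := wn_mul hcc (n1.mul n2)
      have h2 : (fun y => s c * ((Y y - s w) * (Y y - s (-w)))) =
          fun y => circ R y + (circ R y)⁻¹ - (ζ + ζ⁻¹) := funext fun y => hdiff w ζ hζ' y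
      have h3 : wn (fun _ : ℝ => s c) = 0 := by
        unfold wn
        simp
      rw [h2, (wn_joukowski hR hζ).2, wn_mul n1 n2, w2, h3] at h1
      linarith
    unfold dpr
    rw [pr_circ_eq hR0 n1, pr_circ_eq hR0 n2, w1, w2]
    have hint : ∫ y in (0 : ℝ)..1, Real.log ‖Y y - s w‖ ≤
        ∫ y in (0 : ℝ)..1, Real.log ‖Y y - s (-w)‖ := by
      refine intervalIntegral.integral_mono_on zero_le_one
        (n1.cont_log.intervalIntegrable _ _) (n2.cont_log.intervalIntegrable _ _) fun y _ => ?_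
      exact Real.log_le_log (norm_pos_iff.2 (n1.ne_zero y)) (norm_le_side hside (hYd y))
    have hlog : 0 < Real.log R := Real.log_pos hR
    have hpi := Real.pi_pos
    have h5 : 0 < Real.log R * (2 * π) := by positivity
    have h6 := mul_le_mul_of_nonneg_left hint (by positivity : 0 ≤ 2 * π)
    linarith
  exact mul_pos (key p hp h.sp) (key q hq h.sq)

/-- There are infinitely many radii. -/
theorem exists_radius_avoid {η : ℝ} (hη : 0 < η) {B : Set ℝ} (hB : B.Finite) :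
    ∃ R, 1 < R ∧ R + R⁻¹ < 2 + η ∧ R ∉ B := by
  obtain ⟨R₀, h1, h2⟩ := exists_radius hη
  obtain ⟨R, hR, hRB⟩ := (Set.Ioo_infinite h1).exists_notMem_finite hB
  refine ⟨R, hR.1, lt_of_le_of_lt ?_ h2, hRB⟩
  have h3 : 0 < R := one_pos.trans hR.1
  have h4 : 0 < R₀ := h3.trans hR.2
  have h5 : R₀ + R₀⁻¹ - (R + R⁻¹) = (R₀ - R) * (1 - (R * R₀)⁻¹) := by
    field_simp
    ring
  have h6 : (R * R₀)⁻¹ ≤ 1 := inv_le_one_of_one_le₀ (by nlinarith [hR.1, h1])
  have h7 : 0 ≤ (R₀ - R) * (1 - (R * R₀)⁻¹) :=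
    mul_nonneg (sub_nonneg.2 hR.2.le) (sub_nonneg.2 h6)
  linarith

theorem loop_avoid (h : SameSide s c t p q) (hp : Spc s (c * p ^ 2 + t))
    (hq : Spc s (c * q ^ 2 + t)) {B : Set ℝ} (hB : B.Finite) :
    ∃ (R : ℝ) (X : ℝ → ℂ), 1 < R ∧ R ∉ B ∧ LoopOn s c t X (circ R) ∧
      0 < dpr s X (circ R) p * dpr s X (circ R) q := by
  obtain ⟨m, ρ, h⟩ := h
  obtain ⟨η, hη, H⟩ := exists_loop_radius h hp hq
  obtain ⟨R, h1, h2, h3⟩ := exists_radius_avoid hη hB
  obtain ⟨X, h4, h5⟩ := H R h1 h2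
  exact ⟨R, X, h1, h3, h4, h5⟩

theorem torus_avoid {X : ℝ → ℂ} {R : ℝ} (h : LoopOn s c t X (circ R))
    (hp : Spc s (c * p ^ 2 + t)) (hq : Spc s (c * q ^ 2 + t))
    {f : POpen (qf c t) (pts p q)} {g : K[X]} (hfg : f ∣ zpol (qf c t) (pts p q) g)
    (hg : ∀ y, g.eval₂ s (circ R y) ≠ 0) :
    ∃ Γ : Torus (POpen (qf c t) (pts p q)) 1,
      (∀ θ (y : K), Γ.e θ (pcst (qf c t) (pts p q) y) = s y) ∧ Av Γ f ∧
      Γ.reg (symb (pent (qf c t) (pts p q) 0 1)) = dpr s X (circ R) p ∧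
      Γ.reg (symb (pent (qf c t) (pts p q) 2 3)) = dpr s X (circ R) q := by
  have hp' : Spc s (c * (-p) ^ 2 + t) := by rwa [neg_sq]
  have hq' : Spc s (c * (-q) ^ 2 + t) := by rwa [neg_sq]
  have hP : ∀ y, PtS s (qf c t) (pts p q) (X y) (circ R y) := by
    intro y
    refine ⟨?_, fun m => ?_⟩
    · rw [eval₂_qf]
      exact h.eq y
    · fin_cases m
      · exact h.ne p hp y
      · exact h.ne (-p) hp' y
      · exact h.ne q hq y
      · exact h.ne (-q) hq' y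
  refine ⟨mkS h.hX h.nZ.smooth h.hX1 h.hZ1 hP, fun θ y => ?_, fun θ => ?_, ?_, ?_⟩
  · rw [mkS_e, PtS.evA_pcst]
  · rw [mkS_e]
    have e : ∀ g : K[X], (hP (θ 0)).evA (zpol (qf c t) (pts p q) g) =
        g.eval₂ s (circ R (θ 0)) := by
      intro g
      unfold zpol
      rw [coe_eval₂RingHom, hom_eval₂]
      have e1 : ((hP (θ 0)).evA.comp (pcst (qf c t) (pts p q))) = s :=
        RingHom.ext fun y => (hP (θ 0)).evA_pcst y
      have e2 : (hP (θ 0)).evA (toP (qf c t) (pts p q) (pz (qf c t))) = circ R (θ 0) :=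
        (hP (θ 0)).evA_uz
      rw [e1, e2]
    obtain ⟨k, hk⟩ := hfg
    intro h0
    have h1 := e g
    rw [hk, map_mul, h0, zero_mul] at h1
    exact hg _ h1.symm
  · rw [mkS_reg h.hX h.nZ]
    rfl
  · rw [mkS_reg h.hX h.nZ]
    rfl

/-- the norms of the zeros of a polynomial -/
theorem finite_norms (s : K →+* ℂ) {g : K[X]} (hg : g ≠ 0) :
    ∃ B : Set ℝ, B.Finite ∧ ∀ R, 0 ≤ R → R ∉ B → ∀ y, g.eval₂ s (circ R y) ≠ 0 := by
  have hg' : g.map s ≠ 0 := (Polynomial.map_ne_zero_iff s.injective).2 hg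
  refine ⟨(fun z : ℂ => ‖z‖) '' {z | (g.map s).IsRoot z},
    (Polynomial.finite_setOfPred_isRoot hg').image _, fun R hR0 hR y h => hR ?_⟩
  refine ⟨circ R y, ?_, norm_circ hR0 y⟩
  show (g.map s).eval _ = 0
  rw [eval_map]
  exact h

/-- loops with a sign -/
theorem torus_sign (hc : c ≠ 0) (hp : Spc s (c * p ^ 2 + t)) (hq : Spc s (c * q ^ 2 + t))
    {f : POpen (qf c t) (pts p q)} (hf : f ≠ 0) :
    (SameSide s c t p q → ∃ Γ : Torus (POpen (qf c t) (pts p q)) 1,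
      (∀ θ (y : K), Γ.e θ (pcst (qf c t) (pts p q) y) = s y) ∧ Av Γ f ∧
      0 < Γ.reg (symb (pent (qf c t) (pts p q) 0 1)) *
        Γ.reg (symb (pent (qf c t) (pts p q) 2 3))) ∧
    (SameSide s c t p (-q) → ∃ Γ : Torus (POpen (qf c t) (pts p q)) 1,
      (∀ θ (y : K), Γ.e θ (pcst (qf c t) (pts p q) y) = s y) ∧ Av Γ f ∧
      Γ.reg (symb (pent (qf c t) (pts p q) 0 1)) *
        Γ.reg (symb (pent (qf c t) (pts p q) 2 3)) < 0) := by
  obtain ⟨g, hg, hfg⟩ := exists_dvd_z (w := c) (t := t) (b := pts p q) hc hf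
  obtain ⟨B, hB, hBR⟩ := finite_norms s hg
  have hq' : Spc s (c * (-q) ^ 2 + t) := by rwa [neg_sq]
  constructor
  · intro h
    obtain ⟨R, X, h1, h2, h3, h4⟩ := loop_avoid h hp hq hB
    obtain ⟨Γ, e1, e2, e3, e4⟩ := torus_avoid h3 hp hq hfg (hBR R (zero_le_one.trans h1.le) h2)
    exact ⟨Γ, e1, e2, by rw [e3, e4]; exact h4⟩
  · intro h
    obtain ⟨R, X, h1, h2, h3, h4⟩ := loop_avoid h hp hq' hB
    obtain ⟨Γ, e1, e2, e3, e4⟩ := torus_avoid h3 hp hq hfg (hBR R (zero_le_one.trans h1.le) h2)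
    refine ⟨Γ, e1, e2, ?_⟩
    rw [dpr_neg, mul_neg, neg_pos] at h4
    rw [e3, e4]
    exact h4

end Pool.Agent.X232.CF.E
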