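import Pool.Agent.X232.CF.E.Loop
set_option autoImplicit false

/-!
The regulator isomorphism for the elliptic curves `z + 1/z = w x² - w - 1/w` over real quadratic
fields.
-/

namespace Pool.Agent.X232.CF.E

open Polynomial

open Pool.Agent.TH826.MK (Torus symb KQ Unramified)

open Pool.Agent.TH826.HD Pool.Agent.TH826.UH

open Pool.Agent.TH690.UE

open Pool.Agent.X232.CU (Av)

open NumberField

variable {K : Type*} [Field K] [CharZero K]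

theorem unr_E {w : K} (hw : w ≠ 0) (iw : IsIntegral ℤ w) (iw' : IsIntegral ℤ w⁻¹) (s : K →+* ℂ)
    (L : Type*) [Field L] [Algebra (POpen (FF w) (bb w)) L] (k : Fin 2) :
    KQ.map 2 (algebraMap (POpen (FF w) (bb w)) L) (clE w k) ∈ Unramified L 2 := by
  obtain ⟨v1, v2⟩ := val_unit hw
  have ip : IsIntegral ℤ (1 + w⁻¹) := isIntegral_one.add iw'
  have iq : IsIntegral ℤ (1 - w⁻¹) := isIntegral_one.sub iw'
  refine symb_mem_unramified _ s (integral_qf iw (iw.add iw').neg) (fun m => ?_) _ _ (fun m => ?_)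
  · fin_cases m
    · exact ip
    · exact ip.neg
    · exact iq
    · exact iq.neg
  · fin_cases m
    · show Special s ((qf w (-(w + w⁻¹))).eval (1 + w⁻¹))
      rw [eval_qf, v1]
      exact special_two _
    · show Special s ((qf w (-(w + w⁻¹))).eval (-(1 + w⁻¹)))
      rw [eval_qf, neg_sq, v1]
      exact special_two _
    · show Special s ((qf w (-(w + w⁻¹))).eval (1 - w⁻¹))
      rw [eval_qf, v2]
      exact special_neg_two _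
    · show Special s ((qf w (-(w + w⁻¹))).eval (-(1 - w⁻¹)))
      rw [eval_qf, neg_sq, v2]
      exact special_neg_two _

/-- the data of the curve -/
noncomputable def dataE {w : K} (hw : w ≠ 0) (hw1 : w ^ 2 ≠ 1) (iw : IsIntegral ℤ w)
    (iw' : IsIntegral ℤ w⁻¹) (s : K →+* ℂ) (L : Type*) [Field L]
    [Algebra (POpen (FF w) (bb w)) L] :
    Data (pcst (FF w) (bb w)) L (Fin 4 ⊕ Bool) (Option (Fin 4)) (Fin 2) where
  pl := plE hw hw1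
  pl_cst := cst_E hw hw1
  inj := inj_E hw hw1
  unif := unif_E hw hw1
  gens := gensE w
  units := units_E hw hw1
  rank := rank_E hw hw1
  cl := clE w
  unr := unr_E hw iw iw' s L
  red := red_E hw hw1

omit [CharZero K] in
/-- loops at two embeddings -/
theorem loops_E {w : K} (hw : w ≠ 0) {s : Fin 2 → (K →+* ℂ)}
    (h : (SameSide (s 0) w (-(w + w⁻¹)) (1 + w⁻¹) (1 - w⁻¹) ∧
        SameSide (s 1) w (-(w + w⁻¹)) (1 + w⁻¹) (-(1 - w⁻¹))) ∨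
      (SameSide (s 0) w (-(w + w⁻¹)) (1 + w⁻¹) (-(1 - w⁻¹)) ∧
        SameSide (s 1) w (-(w + w⁻¹)) (1 + w⁻¹) (1 - w⁻¹)))
    {f : POpen (FF w) (bb w)} (hf : f ≠ 0) :
    ∃ Γ : Fin 2 → Torus (POpen (FF w) (bb w)) 1,
      (∀ l θ (y : K), (Γ l).e θ (pcst (FF w) (bb w) y) = s l y) ∧ (∀ l, Av (Γ l) f) ∧
      (Matrix.of fun l k => (Γ l).reg (clE w k)).det ≠ 0 := by
  obtain ⟨v1, v2⟩ := val_unit hw
  have sp : ∀ l, Spc (s l) (w * (1 + w⁻¹) ^ 2 + -(w + w⁻¹)) := fun l => by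
    rw [v1]
    exact (special_two _).spc
  have sq : ∀ l, Spc (s l) (w * (1 - w⁻¹) ^ 2 + -(w + w⁻¹)) := fun l => by
    rw [v2]
    exact (special_neg_two _).spc
  have key : ∃ Γ : Fin 2 → Torus (POpen (FF w) (bb w)) 1,
      (∀ l θ (y : K), (Γ l).e θ (pcst (FF w) (bb w) y) = s l y) ∧ (∀ l, Av (Γ l) f) ∧
      ((Γ 0).reg (clE w 0) * (Γ 0).reg (clE w 1) < 0 ∧
          0 < (Γ 1).reg (clE w 0) * (Γ 1).reg (clE w 1) ∨
        0 < (Γ 0).reg (clE w 0) * (Γ 0).reg (clE w 1) ∧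
          (Γ 1).reg (clE w 0) * (Γ 1).reg (clE w 1) < 0) := by
    have mk : ∀ Γ₀ Γ₁ : Torus (POpen (FF w) (bb w)) 1,
        (∀ θ (y : K), Γ₀.e θ (pcst (FF w) (bb w) y) = s 0 y) →
        (∀ θ (y : K), Γ₁.e θ (pcst (FF w) (bb w) y) = s 1 y) → Av Γ₀ f → Av Γ₁ f →
        ∃ Γ : Fin 2 → Torus (POpen (FF w) (bb w)) 1, Γ 0 = Γ₀ ∧ Γ 1 = Γ₁ ∧
          (∀ l θ (y : K), (Γ l).e θ (pcst (FF w) (bb w) y) = s l y) ∧ (∀ l, Av (Γ l) f) := by
      intro Γ₀ Γ₁ h0 h1 a0 a1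
      refine ⟨![Γ₀, Γ₁], rfl, rfl, fun l => ?_, fun l => ?_⟩
      · fin_cases l
        · exact h0
        · exact h1
      · fin_cases l
        · exact a0
        · exact a1
    rcases h with ⟨h0, h1⟩ | ⟨h0, h1⟩
    · obtain ⟨Γ₀, e0, a0, n0⟩ := (torus_sign hw (sp 0) (sq 0) hf).1 h0
      obtain ⟨Γ₁, e1, a1, n1⟩ := (torus_sign hw (sp 1) (sq 1) hf).2 h1
      obtain ⟨Γ, rfl, rfl, h2, h3⟩ := mk Γ₀ Γ₁ e0 e1 a0 a1
      exact ⟨Γ, h2, h3, Or.inr ⟨n0, n1⟩⟩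
    · obtain ⟨Γ₀, e0, a0, n0⟩ := (torus_sign hw (sp 0) (sq 0) hf).2 h0
      obtain ⟨Γ₁, e1, a1, n1⟩ := (torus_sign hw (sp 1) (sq 1) hf).1 h1
      obtain ⟨Γ, rfl, rfl, h2, h3⟩ := mk Γ₀ Γ₁ e0 e1 a0 a1
      exact ⟨Γ, h2, h3, Or.inl ⟨n0, n1⟩⟩
  obtain ⟨Γ, h1, h2, h3⟩ := key
  refine ⟨Γ, h1, h2, ?_⟩
  rw [Matrix.det_fin_two]
  exact det_ne h3

/-- the loops over the place `l` -/
def OverPl {w : K} (s : Fin 2 → (K →+* ℂ)) (l : Fin 2)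
    (Γ : Torus (POpen (FF w) (bb w)) 1) : Prop :=
  ∀ θ (y : K), Γ.e θ (pcst (FF w) (bb w) y) = s l y

theorem iso_E {w : K} (hw : w ≠ 0) (hw1 : w ^ 2 ≠ 1) (iw : IsIntegral ℤ w)
    (iw' : IsIntegral ℤ w⁻¹) {s : Fin 2 → (K →+* ℂ)}
    (h : (SameSide (s 0) w (-(w + w⁻¹)) (1 + w⁻¹) (1 - w⁻¹) ∧
        SameSide (s 1) w (-(w + w⁻¹)) (1 + w⁻¹) (-(1 - w⁻¹))) ∨
      (SameSide (s 0) w (-(w + w⁻¹)) (1 + w⁻¹) (-(1 - w⁻¹)) ∧
        SameSide (s 1) w (-(w + w⁻¹)) (1 + w⁻¹) (1 - w⁻¹)))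
    (L : Type*) [Field L] [Algebra (POpen (FF w) (bb w)) L]
    [IsFractionRing (POpen (FF w) (bb w)) L] :
    IsoModConstants (pcst (FF w) (bb w)) L (OverPl (w := w) s) := by
  have hdom : IsDomain (POpen (FF w) (bb w)) := isDomain_POpen (pos_FF hw)
  refine iso_mod_constants (OverPl (w := w) s) (fun t Γ hΓ c => ⟨s t c, fun θ => hΓ θ c⟩)
    (dataE hw hw1 iw iw' (s 0) L) fun f hf => ?_
  exact loops_E hw h hf

/-- the condition for units of real quadratic fields -/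
theorem sides [NumberField K] (hK : Module.finrank ℚ K = 2) {s₁ s₂ : K →+* ℝ} (hs : s₁ ≠ s₂)
    (w : (𝓞 K)ˣ) (h1 : (w : K) ^ 2 ≠ 1) :
    (SameSide (cpx s₁) (w : K) (-((w : K) + (w : K)⁻¹)) (1 + (w : K)⁻¹) (1 - (w : K)⁻¹) ∧
      SameSide (cpx s₂) (w : K) (-((w : K) + (w : K)⁻¹)) (1 + (w : K)⁻¹) (-(1 - (w : K)⁻¹))) ∨
    (SameSide (cpx s₁) (w : K) (-((w : K) + (w : K)⁻¹)) (1 + (w : K)⁻¹) (-(1 - (w : K)⁻¹)) ∧
      SameSide (cpx s₂) (w : K) (-((w : K) + (w : K)⁻¹)) (1 + (w : K)⁻¹) (1 - (w : K)⁻¹)) := by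
  have hw0 : (w : K) ≠ 0 := NumberField.Units.coe_ne_zero w
  have hm := mul_eq hK hs w
  have p1 : 0 ≤ |s₁ (w : K)| := abs_nonneg _
  have p2 : 0 ≤ |s₂ (w : K)| := abs_nonneg _
  rcases lt_trichotomy |s₁ (w : K)| 1 with h4 | h4 | h4
  · have h5 : 1 < |s₂ (w : K)| := by nlinarith
    exact Or.inr ⟨sameSide_small hw0 h4, sameSide_large hw0 h5⟩
  · exfalso
    apply h1
    apply s₁.injective
    rw [map_pow, ← sq_abs, h4, one_pow, map_one]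
  · have h5 : |s₂ (w : K)| < 1 := by nlinarith
    exact Or.inl ⟨sameSide_large hw0 h4, sameSide_small hw0 h5⟩

end Pool.Agent.X232.CF.E
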