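import Pool.Agent.X232.CF.E.Place
set_option autoImplicit false

/-!
The places of the curve `z + 1/z = w x² - w - 1/w` and the orders of the functions.
-/

namespace Pool.Agent.X232.CF.E

open Polynomial

open Pool.Agent.TH826.HD

open Pool.Agent.TH690.UE (qf pts)

open Pool.Agent.X232.CU (exists_root od_coe ti ti_ne_zero order_ti ti_eq)

section gen

variable {K : Type*} [Field K]

/-- power series as Laurent series -/
noncomputable abbrev PS (K : Type*) [Field K] : PowerSeries K →+* HahnSeries ℤ K :=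
  HahnSeries.ofPowerSeries ℤ K

theorem PS_C (c : K) : PS K (PowerSeries.C c) = HahnSeries.C c := HahnSeries.ofPowerSeries_C c

theorem ti_X : ti K * PS K PowerSeries.X = 1 := by
  unfold ti PS
  rw [HahnSeries.ofPowerSeries_X, HahnSeries.single_mul_single]
  simp

theorem order_X : (PS K PowerSeries.X).order = 1 := by
  unfold PS
  rw [HahnSeries.ofPowerSeries_X]
  exact HahnSeries.order_single one_ne_zero

theorem PS_ne {p : PowerSeries K} (hp : PowerSeries.constantCoeff p ≠ 0) : PS K p ≠ 0 := by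
  rw [Ne, map_eq_zero_iff _ HahnSeries.ofPowerSeries_injective]
  rintro rfl
  exact hp (map_zero _)

theorem order_ti_sub (c : K) : (ti K - HahnSeries.C c).order = -1 := by
  rw [ti_eq, HahnSeries.order_mul ti_ne_zero (PS_ne (by simp)), order_ti, od_coe (by simp)]
  rfl

theorem ti_sub_ne (c : K) : ti K - HahnSeries.C c ≠ 0 := by
  rw [ti_eq]
  exact mul_ne_zero ti_ne_zero (PS_ne (by simp))

theorem eval₂_PS (p : K[X]) (ξ : PowerSeries K) : p.eval₂ HahnSeries.C (PS K ξ) =
    PS K (p.eval₂ PowerSeries.C ξ) := by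
  rw [hom_eval₂]
  congr 1
  ext1 c
  exact (PS_C c).symm

theorem const_eval (p : K[X]) (ξ : PowerSeries K) :
    PowerSeries.constantCoeff (p.eval₂ PowerSeries.C ξ) =
      p.eval (PowerSeries.constantCoeff ξ) := by
  rw [hom_eval₂]
  have : (PowerSeries.constantCoeff : PowerSeries K →+* K).comp PowerSeries.C = RingHom.id K := by
    ext c
    simp
  rw [this]
  rfl

/-- a polynomial in `1/t` -/
theorem eval_ti (p : K[X]) : ∃ q : PowerSeries K, PowerSeries.constantCoeff q = p.leadingCoeff ∧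
    p.eval₂ HahnSeries.C (ti K) = ti K ^ p.natDegree * PS K q := by
  set D := p.natDegree with hD
  refine ⟨∑ m ∈ Finset.range (D + 1), PowerSeries.C (p.coeff m) * PowerSeries.X ^ (D - m), ?_, ?_⟩
  · rw [map_sum, Finset.sum_range_succ, Finset.sum_eq_zero]
    · rw [zero_add, Nat.sub_self, pow_zero, mul_one, PowerSeries.constantCoeff_C]
      rfl
    · intro m hm
      have := Finset.mem_range.1 hm
      rw [map_mul, map_pow, PowerSeries.constantCoeff_X, zero_pow (by omega), mul_zero]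
  · rw [eval₂_eq_sum_range, map_sum, Finset.mul_sum]
    refine Finset.sum_congr rfl fun m hm => ?_
    have hmD : m ≤ D := Nat.lt_succ_iff.1 (Finset.mem_range.1 hm)
    rw [map_mul, map_pow, PS_C]
    have e2 : ti K ^ D * PS K PowerSeries.X ^ (D - m) = ti K ^ m := by
      have : D = m + (D - m) := by omega
      conv_lhs => rw [this, pow_add]
      rw [show m + (D - m) - m = D - m by omega, mul_assoc, ← mul_pow, ti_X, one_pow, mul_one]
    rw [← e2]
    ring

theorem eval_ti_ne {p : K[X]} (hp : p ≠ 0) : p.eval₂ HahnSeries.C (ti K) ≠ 0 := by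
  obtain ⟨q, h1, h2⟩ := eval_ti p
  rw [h2]
  exact mul_ne_zero (pow_ne_zero _ ti_ne_zero)
    (PS_ne (by rw [h1]; exact leadingCoeff_ne_zero.2 hp))

theorem order_eval_ti {p : K[X]} (hp : p ≠ 0) :
    (p.eval₂ HahnSeries.C (ti K)).order = -(p.natDegree : ℤ) := by
  obtain ⟨q, h1, h2⟩ := eval_ti p
  have h3 : PowerSeries.constantCoeff q ≠ 0 := by rw [h1]; exact leadingCoeff_ne_zero.2 hp
  rw [h2, HahnSeries.order_mul (pow_ne_zero _ ti_ne_zero) (PS_ne h3), od_coe h3,
    HahnSeries.order_pow, order_ti]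
  simp

theorem eval_PS_ne {p : K[X]} (hp : p ≠ 0) {ξ : PowerSeries K}
    (hξ : ξ - PowerSeries.C (PowerSeries.constantCoeff ξ) ≠ 0) :
    p.eval₂ HahnSeries.C (PS K ξ) ≠ 0 := by
  set c := PowerSeries.constantCoeff ξ with hc
  obtain ⟨q, hq, hnd⟩ := exists_eq_pow_rootMultiplicity_mul_and_not_dvd p hp c
  have hq0 : q.eval c ≠ 0 := by
    intro h
    exact hnd (dvd_iff_isRoot.2 h)
  rw [hq, eval₂_mul, eval₂_pow, eval₂_sub, eval₂_X, eval₂_C, eval₂_PS, ← PS_C, ← map_sub]
  refine mul_ne_zero (pow_ne_zero _ ?_) (PS_ne ?_)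
  · rwa [Ne, map_eq_zero_iff _ HahnSeries.ofPowerSeries_injective]
  · rwa [const_eval]

end gen

section pl

variable {K : Type*} [Field K] [CharZero K] {w : K}

theorem natDegree_FF (hw : w ≠ 0) : (FF w).natDegree = 2 :=
  Pool.Agent.TH690.UE.natDegree_qf hw _

theorem pos_FF (hw : w ≠ 0) : 0 < (FF w).natDegree := by
  rw [natDegree_FF hw]
  norm_num

theorem eval_FF (x : HahnSeries ℤ K) : (FF w).eval₂ HahnSeries.C x =
    HahnSeries.C w * x ^ 2 + HahnSeries.C (tt w) := by
  unfold FF Pool.Agent.TH690.UE.qf tt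
  simp

variable (hw : w ≠ 0) (hw1 : w ^ 2 ≠ 1)

/-- the power series of `x` -/
noncomputable def xi (i : Fin 4) : PowerSeries K := (exists_xi hw hw1 i).choose

theorem xi_eq (i : Fin 4) : (xi hw hw1 i - PowerSeries.C (bb w i)) *
    (xi hw hw1 i + PowerSeries.C (bb w i)) *
      (PowerSeries.C w * (PowerSeries.C (ep K i) + PowerSeries.X)) = PowerSeries.X ^ 2 :=
  (exists_xi hw hw1 i).choose_spec.1

theorem xi_const (i : Fin 4) : PowerSeries.constantCoeff (xi hw hw1 i) = bb w i :=
  (exists_xi hw hw1 i).choose_spec.2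

theorem pt_eq (i : Fin 4) : PS K (PowerSeries.C (ep K i) + PowerSeries.X) ^ 2 -
    (FF w).eval₂ HahnSeries.C (PS K (xi hw hw1 i)) *
      PS K (PowerSeries.C (ep K i) + PowerSeries.X) + 1 = 0 := by
  have h1 := xi_eq hw hw1 i
  have h2 : (PowerSeries.C (w * bb w i ^ 2 + tt w) : PowerSeries K) =
      PowerSeries.C (2 * ep K i) := by rw [bb_sq hw i]
  have h3 : (PowerSeries.C (ep K i ^ 2) : PowerSeries K) = 1 := by rw [ep_sq, map_one]
  have h4 : (PowerSeries.C (2 * ep K i) : PowerSeries K) = 2 * PowerSeries.C (ep K i) := by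
    rw [map_mul]
    congr 1
  rw [map_add, map_mul, map_pow, h4] at h2
  rw [map_pow] at h3
  rw [eval_FF, ← PS_C, ← PS_C, ← map_pow, ← map_pow, ← map_mul, ← map_add, ← map_mul, ← map_sub,
    ← map_one (PS K), ← map_add]
  have h5 : (PowerSeries.C (ep K i) + PowerSeries.X : PowerSeries K) ^ 2 -
      (PowerSeries.C w * xi hw hw1 i ^ 2 + PowerSeries.C (tt w)) *
        (PowerSeries.C (ep K i) + PowerSeries.X) + 1 = 0 := by
    linear_combination -h1 - (PowerSeries.C (ep K i) + PowerSeries.X) * h2 + (-1) * h3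
  rw [h5, map_zero]

theorem xi_sub_ne (i : Fin 4) : xi hw hw1 i - PowerSeries.C (bb w i) ≠ 0 := by
  intro h
  have h1 := xi_eq hw hw1 i
  rw [h, zero_mul, zero_mul] at h1
  exact pow_ne_zero 2 PowerSeries.X_ne_zero h1.symm

theorem pt_ne (i m : Fin 4) : PS K (xi hw hw1 i) - HahnSeries.C (bb w m) ≠ 0 := by
  rw [← PS_C, ← map_sub]
  by_cases hm : m = i
  · subst hm
    rw [Ne, map_eq_zero_iff _ HahnSeries.ofPowerSeries_injective]
    exact xi_sub_ne hw hw1 m
  · refine PS_ne ?_
    rw [map_sub, xi_const, PowerSeries.constantCoeff_C, sub_ne_zero]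
    exact fun h => hm (bb_inj hw hw1 h).symm

/-- the place at the point `(b_i, ε_i)` -/
noncomputable def pT (i : Fin 4) : POpen (FF w) (bb w) →+* HahnSeries ℤ K :=
  mkPl (FF w) (bb w) (PS K (xi hw hw1 i)) (PS K (PowerSeries.C (ep K i) + PowerSeries.X))
    (pt_eq hw hw1 i) (pt_ne hw hw1 i)

theorem ep_const (i : Fin 4) : PowerSeries.constantCoeff
    (PowerSeries.C (ep K i) + PowerSeries.X : PowerSeries K) = ep K i := by simp

theorem pT_uz (i : Fin 4) : (pT hw hw1 i (uz (FF w) (bb w) : POpen (FF w) (bb w))).order = 0 := by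
  unfold pT
  rw [mkPl_uz, od_coe]
  rw [ep_const]
  exact ep_ne i

theorem pT_ux_ne {i m : Fin 4} (h : m ≠ i) :
    (pT hw hw1 i (ux (FF w) (bb w) m : POpen (FF w) (bb w))).order = 0 := by
  unfold pT
  rw [mkPl_ux, ← PS_C, ← map_sub, od_coe]
  rw [map_sub, xi_const, PowerSeries.constantCoeff_C, sub_ne_zero]
  exact fun e => h (bb_inj hw hw1 e).symm

theorem pT_ux (i : Fin 4) :
    (pT hw hw1 i (ux (FF w) (bb w) i : POpen (FF w) (bb w))).order = 2 := by
  unfold pT
  rw [mkPl_ux, ← PS_C, ← map_sub]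
  have h1 := congrArg (fun p => (PS K p).order) (xi_eq hw hw1 i)
  have n1 : PS K (xi hw hw1 i - PowerSeries.C (bb w i)) ≠ 0 := by
    rw [Ne, map_eq_zero_iff _ HahnSeries.ofPowerSeries_injective]
    exact xi_sub_ne hw hw1 i
  have c2 : PowerSeries.constantCoeff (xi hw hw1 i + PowerSeries.C (bb w i)) ≠ 0 := by
    rw [map_add, xi_const, PowerSeries.constantCoeff_C, ← two_mul]
    exact mul_ne_zero two_ne_zero (bb_ne hw1 i)
  have c3 : PowerSeries.constantCoeff
      (PowerSeries.C w * (PowerSeries.C (ep K i) + PowerSeries.X)) ≠ 0 := by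
    rw [map_mul, ep_const, PowerSeries.constantCoeff_C]
    exact mul_ne_zero hw (ep_ne i)
  have h2 : (PS K (PowerSeries.X ^ 2)).order = 2 := by
    rw [map_pow, HahnSeries.order_pow, order_X]
    norm_num
  simp only [h2] at h1
  rw [map_mul, map_mul, HahnSeries.order_mul (mul_ne_zero n1 (PS_ne c2)) (PS_ne c3),
    HahnSeries.order_mul n1 (PS_ne c2), od_coe c2, od_coe c3, add_zero, add_zero] at h1
  exact h1

theorem pT_unif (i : Fin 4) : (pT hw hw1 i (toP (FF w) (bb w) (pz (FF w)) -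
    pcst (FF w) (bb w) (ep K i))).order = 1 := by
  unfold pT
  rw [map_sub, mkPl_pz, mkPl_cst, map_add, PS_C, add_sub_cancel_left, order_X]

theorem pT_inj (i : Fin 4) : Function.Injective (pT hw hw1 i) := by
  refine mkPl_inj _ _ _ _ (pos_FF hw) fun p hp => eval_PS_ne hp ?_
  rw [xi_const]
  exact xi_sub_ne hw hw1 i

/-- the power series of `z / x²` -/
noncomputable def zt : PowerSeries K := (exists_zeta hw).choose

omit [CharZero K] in
theorem zt_eq : zt hw ^ 2 - (PowerSeries.C w + PowerSeries.C (tt w) * PowerSeries.X ^ 2) * zt hw +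
      PowerSeries.X ^ 4 = 0 := (exists_zeta hw).choose_spec.1

omit [CharZero K] in
theorem zt_const : PowerSeries.constantCoeff (zt hw) = w := (exists_zeta hw).choose_spec.2

/-- `z` at infinity -/
noncomputable def zi : HahnSeries ℤ K := ti K ^ 2 * PS K (zt hw)

omit [CharZero K] in
theorem zi_eq : zi hw ^ 2 - (HahnSeries.C w * ti K ^ 2 + HahnSeries.C (tt w)) * zi hw + 1 = 0 := by
  have h1 := congrArg (PS K) (zt_eq hw)
  rw [map_zero, map_add, map_sub, map_mul, map_add, map_mul, map_pow, map_pow, map_pow, PS_C,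
    PS_C] at h1
  have h2 := ti_X (K := K)
  unfold zi
  have h3 : ti K ^ 4 * PS K PowerSeries.X ^ 4 = 1 := by rw [← mul_pow, h2, one_pow]
  have h4 : ti K ^ 2 * PS K PowerSeries.X ^ 2 = 1 := by rw [← mul_pow, h2, one_pow]
  linear_combination (ti K ^ 4) * h1 - h3 +
    (HahnSeries.C (tt w) * ti K ^ 2 * PS K (zt hw)) * h4

/-- `z` at the two places at infinity -/
noncomputable def zs (s : Bool) : HahnSeries ℤ K :=
  if s then zi hw else HahnSeries.C w * ti K ^ 2 + HahnSeries.C (tt w) - zi hw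

theorem zs_eq (s : Bool) : zs hw s ^ 2 - (FF w).eval₂ HahnSeries.C (ti K) * zs hw s + 1 = 0 := by
  rw [eval_FF]
  have h := zi_eq hw
  unfold zs
  cases s
  · rw [if_neg (by decide)]
    linear_combination h
  · rw [if_pos rfl]
    exact h

omit [CharZero K] in
theorem zi_ne : zi hw ≠ 0 :=
  mul_ne_zero (pow_ne_zero _ ti_ne_zero) (PS_ne (by rw [zt_const]; exact hw))

omit [CharZero K] in
theorem order_zi : (zi hw).order = -2 := by
  have h : PowerSeries.constantCoeff (zt hw) ≠ 0 := by rw [zt_const]; exact hw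
  unfold zi
  rw [HahnSeries.order_mul (pow_ne_zero _ ti_ne_zero) (PS_ne h), od_coe h, HahnSeries.order_pow,
    order_ti]
  norm_num

omit [CharZero K] in
theorem zi_mul : zi hw * (HahnSeries.C w * ti K ^ 2 + HahnSeries.C (tt w) - zi hw) = 1 := by
  linear_combination -(zi_eq hw)

omit [CharZero K] in
theorem order_zs (s : Bool) : (zs hw s).order = if s then -2 else 2 := by
  unfold zs
  cases s
  · rw [if_neg (by decide), if_neg (by decide)]
    have h1 := zi_mul hw
    have h2 : (HahnSeries.C w * ti K ^ 2 + HahnSeries.C (tt w) - zi hw) ≠ 0 := by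
      intro h
      rw [h, mul_zero] at h1
      exact zero_ne_one h1
    have h3 := congrArg HahnSeries.order h1
    rw [HahnSeries.order_mul (zi_ne hw) h2, order_zi, HahnSeries.order_one] at h3
    omega
  · rw [if_pos rfl, if_pos rfl]
    exact order_zi hw

/-- the places at infinity -/
noncomputable def pI (s : Bool) : POpen (FF w) (bb w) →+* HahnSeries ℤ K :=
  mkPl (FF w) (bb w) (ti K) (zs hw s) (zs_eq hw s) fun _ => ti_sub_ne _

theorem pI_uz (s : Bool) : (pI hw s (uz (FF w) (bb w) : POpen (FF w) (bb w))).order =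
    if s then -2 else 2 := by
  unfold pI
  rw [mkPl_uz, order_zs]

theorem pI_ux (s : Bool) (m : Fin 4) :
    (pI hw s (ux (FF w) (bb w) m : POpen (FF w) (bb w))).order = -1 := by
  unfold pI
  rw [mkPl_ux, order_ti_sub]

theorem pI_inj (s : Bool) : Function.Injective (pI hw s) :=
  mkPl_inj _ _ _ _ (pos_FF hw) fun _ hp => eval_ti_ne hp

/-- all places -/
noncomputable def plE : Fin 4 ⊕ Bool → POpen (FF w) (bb w) →+* HahnSeries ℤ K :=
  Sum.elim (pT hw hw1) (pI hw)

end pl

end Pool.Agent.X232.CF.E
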