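import Pool.Agent.X232.CF.E.Ring
import Pool.Agent.X232.CU.Root
set_option autoImplicit false

/-!
The places of the curve `z + 1/z = w x² - w - 1/w` at the four points `x = ± 1 ± 1/w` and at the two
points at infinity.
-/

namespace Pool.Agent.X232.CF.E

open Polynomial

open Pool.Agent.TH826.HD

open Pool.Agent.TH690.UE (qf pts)

open Pool.Agent.X232.CU (exists_root od_coe ti ti_ne_zero order_ti ti_eq)

section mk

variable {K : Type*} [Field K] {F : K[X]} {n : ℕ} {b : Fin n → K}

/-- the place given by a point -/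
noncomputable def mkPl (F : K[X]) (b : Fin n → K) (x z : HahnSeries ℤ K)
    (h : z ^ 2 - F.eval₂ HahnSeries.C x * z + 1 = 0) (hne : ∀ m, x - HahnSeries.C (b m) ≠ 0) :
    POpen F b →+* HahnSeries ℤ K :=
  liftP (evP HahnSeries.C x z h) (by
    unfold pDel
    rw [evP_ppol, eval₂_finsetProd]
    refine Finset.prod_ne_zero_iff.2 fun m _ => ?_
    rw [eval₂_sub, eval₂_X, eval₂_C]
    exact hne m)

variable (x z : HahnSeries ℤ K) (h : z ^ 2 - F.eval₂ HahnSeries.C x * z + 1 = 0)
  (hne : ∀ m, x - HahnSeries.C (b m) ≠ 0)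

theorem mkPl_ppol (p : K[X]) : mkPl F b x z h hne (toP F b (ppol F p)) =
    p.eval₂ HahnSeries.C x := by
  unfold mkPl
  rw [liftP_toP, evP_ppol]

theorem mkPl_pz : mkPl F b x z h hne (toP F b (pz F)) = z := by
  unfold mkPl
  rw [liftP_toP, evP_pz]

theorem mkPl_cst (c : K) : mkPl F b x z h hne (pcst F b c) = HahnSeries.C c := by
  show mkPl F b x z h hne (toP F b (ppol F (C c))) = _
  rw [mkPl_ppol, eval₂_C]

theorem mkPl_ux (m : Fin n) : mkPl F b x z h hne (ux F b m : POpen F b) =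
    x - HahnSeries.C (b m) := by
  rw [coe_ux, mkPl_ppol, eval₂_sub, eval₂_X, eval₂_C]

theorem mkPl_uz : mkPl F b x z h hne (uz F b : POpen F b) = z := by
  rw [coe_uz, mkPl_pz]

/-- injectivity -/
theorem mkPl_inj (hF : 0 < F.natDegree)
    (ht : ∀ p : K[X], p ≠ 0 → p.eval₂ HahnSeries.C x ≠ 0) :
    Function.Injective (mkPl F b x z h hne) := by
  rw [injective_iff_map_eq_zero]
  intro f hf
  by_contra hf0
  obtain ⟨c, hc, g, hg⟩ := exists_dvd_x hF hf0
  have h1 := mkPl_ppol (F := F) (b := b) x z h hne c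
  rw [hg, map_mul, hf, zero_mul] at h1
  exact ht c hc h1.symm

end mk

section par

variable {K : Type*} [Field K]

/-- the constant coefficient -/
noncomputable def tt (w : K) : K := -(w + w⁻¹)

/-- the polynomial `w x² - w - 1/w` -/
noncomputable def FF (w : K) : K[X] := qf w (-(w + w⁻¹))

/-- the four points -/
noncomputable def bb (w : K) : Fin 4 → K := pts (1 + w⁻¹) (1 - w⁻¹)

/-- the values of `z` at the four points -/
def ep (K : Type*) [Field K] : Fin 4 → K := ![1, 1, -1, -1]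

theorem ep_sq (i : Fin 4) : ep K i ^ 2 = 1 := by
  fin_cases i <;> simp [ep]

theorem ep_ne (i : Fin 4) : ep K i ≠ 0 := by
  intro h
  have := ep_sq (K := K) i
  rw [h] at this
  simp at this

variable {w : K}

theorem bb_sq (hw : w ≠ 0) (i : Fin 4) : w * bb w i ^ 2 + tt w = 2 * ep K i := by
  unfold tt bb
  fin_cases i <;> simp [ep, Pool.Agent.TH690.UE.pts] <;> field_simp <;> ring

theorem bb_ne (hw1 : w ^ 2 ≠ 1) (i : Fin 4) : bb w i ≠ 0 := by
  have h1 : (1 : K) + w⁻¹ ≠ 0 := by
    intro h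
    apply hw1
    have h2 : w⁻¹ = -1 := by linear_combination h
    have h3 : w = -1 := by rw [← inv_inv w, h2]; norm_num
    rw [h3]; norm_num
  have h2 : (1 : K) - w⁻¹ ≠ 0 := by
    intro h
    apply hw1
    have h2 : w⁻¹ = 1 := by linear_combination -h
    have h3 : w = 1 := by rw [← inv_inv w, h2]; norm_num
    rw [h3]; norm_num
  unfold bb Pool.Agent.TH690.UE.pts
  fin_cases i
  · exact h1
  · exact neg_ne_zero.2 h1
  · exact h2
  · exact neg_ne_zero.2 h2

variable [CharZero K]

theorem bb_inj (hw : w ≠ 0) (hw1 : w ^ 2 ≠ 1) : Function.Injective (bb w) := by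
  intro i j hij
  have h0 := bb_ne hw1 0
  have h2 := bb_ne hw1 2
  have e0 : bb w 0 = 1 + w⁻¹ := rfl
  have e1 : bb w 1 = -(1 + w⁻¹) := rfl
  have e2 : bb w 2 = 1 - w⁻¹ := rfl
  have e3 : bb w 3 = -(1 - w⁻¹) := rfl
  rw [e0] at h0
  rw [e2] at h2
  have hwi : w⁻¹ ≠ 0 := inv_ne_zero hw
  have n01 : (1 : K) + w⁻¹ ≠ -(1 + w⁻¹) := fun h => h0 (self_eq_neg.1 h)
  have n23 : (1 : K) - w⁻¹ ≠ -(1 - w⁻¹) := fun h => h2 (self_eq_neg.1 h)
  have n02 : (1 : K) + w⁻¹ ≠ 1 - w⁻¹ := fun h => hwi (self_eq_neg.1 (by linear_combination h))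
  have n03 : (1 : K) + w⁻¹ ≠ -(1 - w⁻¹) := fun h => by
    have h' : (2 : K) = 0 := by linear_combination h
    exact two_ne_zero h'
  have n12 : -((1 : K) + w⁻¹) ≠ 1 - w⁻¹ := fun h => by
    have h' : (2 : K) = 0 := by linear_combination -h
    exact two_ne_zero h'
  have n13 : -((1 : K) + w⁻¹) ≠ -(1 - w⁻¹) := fun h => n02 (neg_injective h)
  fin_cases i <;> fin_cases j
  · rfl
  · exact absurd hij n01
  · exact absurd hij n02
  · exact absurd hij n03
  · exact absurd hij.symm n01
  · rfl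
  · exact absurd hij n12
  · exact absurd hij n13
  · exact absurd hij.symm n02
  · exact absurd hij.symm n12
  · rfl
  · exact absurd hij n23
  · exact absurd hij.symm n03
  · exact absurd hij.symm n13
  · exact absurd hij.symm n23
  · rfl

/-- the power series of `x` at the points -/
theorem exists_xi (hw : w ≠ 0) (hw1 : w ^ 2 ≠ 1) (i : Fin 4) : ∃ ξ : PowerSeries K,
    (ξ - PowerSeries.C (bb w i)) * (ξ + PowerSeries.C (bb w i)) *
      (PowerSeries.C w * (PowerSeries.C (ep K i) + PowerSeries.X)) = PowerSeries.X ^ 2 ∧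
      PowerSeries.constantCoeff ξ = bb w i := by
  set Q : PowerSeries K := PowerSeries.C w * (PowerSeries.C (ep K i) + PowerSeries.X) with hQ
  have hQ0 : PowerSeries.constantCoeff Q ≠ 0 := by
    rw [hQ, map_mul, map_add, PowerSeries.constantCoeff_C, PowerSeries.constantCoeff_C,
      PowerSeries.constantCoeff_X, add_zero]
    exact mul_ne_zero hw (ep_ne i)
  have hQi : Q * Q⁻¹ = 1 := PowerSeries.mul_inv_cancel Q hQ0
  have hinj : Function.Injective (![bb w i, -bb w i] : Fin 2 → K) := by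
    have h0 := bb_ne hw1 i
    have hn : bb w i ≠ -bb w i := fun h => h0 (self_eq_neg.1 h)
    intro p q hpq
    fin_cases p <;> fin_cases q
    · rfl
    · exact absurd hpq hn
    · exact absurd hpq.symm hn
    · rfl
  obtain ⟨ξ, h1, h2⟩ := exists_root (m := 1) ![bb w i, -bb w i] hinj
    (PowerSeries.X ^ 2 * Q⁻¹) (by simp) 0
  refine ⟨ξ, ?_, h2⟩
  have h3 : ∏ j, (ξ - PowerSeries.C ((![bb w i, -bb w i] : Fin 2 → K) j)) =
      (ξ - PowerSeries.C (bb w i)) * (ξ + PowerSeries.C (bb w i)) := by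
    rw [Fin.prod_univ_two]
    show (ξ - PowerSeries.C (bb w i)) * (ξ - PowerSeries.C (-bb w i)) = _
    rw [map_neg, sub_neg_eq_add]
  rw [h3] at h1
  rw [h1, mul_assoc, mul_comm Q⁻¹ Q, hQi, mul_one]

omit [CharZero K] in
theorem hensel_quad (α β : PowerSeries K) (hα : PowerSeries.constantCoeff α ≠ 0)
    (hβ : PowerSeries.constantCoeff β = 0) : ∃ ζ : PowerSeries K, ζ ^ 2 - α * ζ + β = 0 ∧
      PowerSeries.constantCoeff ζ = PowerSeries.constantCoeff α := by
  have hH : HenselianRing (PowerSeries K) (Ideal.span {(PowerSeries.X : PowerSeries K)}) :=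
    inferInstance
  set f : (PowerSeries K)[X] := X ^ 2 - C α * X + C β with hf
  have hm : f.Monic := by
    rw [hf]
    monicity!
  obtain ⟨ζ, h1, h2⟩ := hH.is_henselian f hm (PowerSeries.C (PowerSeries.constantCoeff α)) (by
      rw [Ideal.mem_span_singleton, PowerSeries.X_dvd_iff, hf]
      simp [hβ]
      ring) (by
      refine IsUnit.map _ ?_
      rw [PowerSeries.isUnit_iff_constantCoeff, isUnit_iff_ne_zero, hf]
      simp only [derivative_add, derivative_sub, derivative_mul, derivative_C, zero_mul, zero_add,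
        derivative_X, mul_one, derivative_X_pow, eval_add, eval_sub, eval_mul, eval_C, eval_pow,
        eval_X, add_zero, map_sub, map_mul, PowerSeries.constantCoeff_C]
      intro h
      apply hα
      norm_num at h
      have h2 : (PowerSeries.constantCoeff (2 : PowerSeries K) : K) = 2 := map_ofNat _ 2
      rw [h2] at h
      linear_combination h)
  refine ⟨ζ, ?_, ?_⟩
  · have h3 : f.eval ζ = 0 := h1
    rw [hf] at h3
    simpa using h3
  · rw [Ideal.mem_span_singleton, PowerSeries.X_dvd_iff, map_sub, PowerSeries.constantCoeff_C,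
      sub_eq_zero] at h2
    exact h2

omit [CharZero K] in
/-- the power series of `z x⁻²` at infinity -/
theorem exists_zeta (hw : w ≠ 0) : ∃ ζ : PowerSeries K,
    ζ ^ 2 - (PowerSeries.C w + PowerSeries.C (tt w) * PowerSeries.X ^ 2) * ζ +
      PowerSeries.X ^ 4 = 0 ∧ PowerSeries.constantCoeff ζ = w := by
  have h0 : PowerSeries.constantCoeff
      (PowerSeries.C w + PowerSeries.C (tt w) * PowerSeries.X ^ 2) = w := by simp
  obtain ⟨ζ, h1, h2⟩ := hensel_quad (PowerSeries.C w + PowerSeries.C (tt w) * PowerSeries.X ^ 2)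
    (PowerSeries.X ^ 4) (by rwa [h0]) (by simp)
  exact ⟨ζ, h1, by rw [h2, h0]⟩

end par

end Pool.Agent.X232.CF.E
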