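import Pool.Agent.X232.CF.E.Unit
import Pool.Agent.X232.CF.Quo
set_option autoImplicit false

/-!
The relations between the symbols on the curve `z + 1/z = w x² - w - 1/w`.
-/

namespace Pool.Agent.X232.CF.E

open Polynomial

open Pool.Agent.TH826.HD

open Pool.Agent.TH826.MK (KQ symb)

open Pool.Agent.TH690.UE (qf pts)

open Pool.Agent.X232.CU (sy sy_mul_left sy_mul_right sy_prod_left sy_prod_right sy_zpow_left
  sy_zpow_right sy_one_left sy_one_right sy_div_left sy_div_right sy_inv_left sy_inv_right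
  map_sy sy_self symb_eq_sy span_symb sy_steinberg)

variable {K : Type*} [Field K] [CharZero K] {w : K}

/-- the two classes -/
noncomputable def clE (w : K) (k : Fin 2) : KQ (POpen (FF w) (bb w)) 2 :=
  symb (pent (FF w) (bb w) (![0, 2] k) (![1, 3] k))

omit [CharZero K] in
theorem clE_zero : clE w 0 = sy (uz (FF w) (bb w)) (ux (FF w) (bb w) 0 / ux (FF w) (bb w) 1) := rfl

omit [CharZero K] in
theorem clE_one : clE w 1 = sy (uz (FF w) (bb w)) (ux (FF w) (bb w) 2 / ux (FF w) (bb w) 3) := rfl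

omit [CharZero K] in
theorem ux_eq (m : Fin 4) : (ux (FF w) (bb w) m : POpen (FF w) (bb w)) =
    toP (FF w) (bb w) (ppol (FF w) X) - pcst (FF w) (bb w) (bb w m) := by
  rw [coe_ux, map_sub, map_sub]
  rfl

/-- two linear functions -/
theorem pi2_xx (hw : w ≠ 0) (hw1 : w ^ 2 ≠ 1) {i j : Fin 4} (hij : i ≠ j) :
    pi2 (pcst (FF w) (bb w)) (sy (ux (FF w) (bb w) i) (ux (FF w) (bb w) j)) = 0 := by
  have h0 : bb w j - bb w i ≠ 0 := sub_ne_zero.2 ((bb_inj hw hw1).ne hij.symm)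
  refine pi2_lin _ _ _ (Units.mk0 _ h0)⁻¹ (-(Units.mk0 _ h0)⁻¹) ?_
  rw [ux_eq, ux_eq, Units.val_neg, Units.val_inv_eq_inv_val, Units.val_mk0, map_neg]
  have e : pcst (FF w) (bb w) (bb w j - bb w i)⁻¹ * (pcst (FF w) (bb w) (bb w j) -
      pcst (FF w) (bb w) (bb w i)) = 1 := by
    rw [← map_sub, ← map_mul, inv_mul_cancel₀ h0, map_one]
  linear_combination e

omit [CharZero K] in
theorem toP_FF (w : K) : toP (FF w) (bb w) (ppol (FF w) (FF w)) =
    pcst (FF w) (bb w) w * toP (FF w) (bb w) (ppol (FF w) X) ^ 2 +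
      pcst (FF w) (bb w) (tt w) := by
  have e : ppol (FF w) (FF w) = ppol (FF w) (C w) * ppol (FF w) X ^ 2 + ppol (FF w) (C (tt w)) := by
    rw [← map_pow, ← map_mul, ← map_add]
    rfl
  rw [e, map_add, map_mul, map_pow]
  rfl

omit [CharZero K] in
theorem z_eq (w : K) : toP (FF w) (bb w) (pz (FF w)) ^ 2 -
    (pcst (FF w) (bb w) w * toP (FF w) (bb w) (ppol (FF w) X) ^ 2 +
      pcst (FF w) (bb w) (tt w)) * toP (FF w) (bb w) (pz (FF w)) + 1 = 0 := by
  have h := congrArg (toP (FF w) (bb w)) (pz_eq (FF w))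
  rw [map_zero, map_add, map_sub, map_mul, map_pow, map_one, toP_FF] at h
  exact h

omit [CharZero K] in
/-- `z` and the product of two linear functions -/
theorem pi2_zx (hw : w ≠ 0) (i j : Fin 4) (e : K) (he : e = 1 ∨ e = -1)
    (h1 : bb w j = -bb w i) (h2 : w * bb w i ^ 2 + tt w = 2 * e) :
    pi2 (pcst (FF w) (bb w)) (sy (uz (FF w) (bb w)) (ux (FF w) (bb w) i)) +
      pi2 (pcst (FF w) (bb w)) (sy (uz (FF w) (bb w)) (ux (FF w) (bb w) j)) = 0 := by
  set cst := pcst (FF w) (bb w) with hcst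
  set g := uz (FF w) (bb w) * cu cst (Units.mk0 w hw) *
    (ux (FF w) (bb w) i * ux (FF w) (bb w) j) with hg
  have hee : e * e = 1 := by rcases he with rfl | rfl <;> norm_num
  have h3 : pi2 cst (sy (uz (FF w) (bb w)) g) = 0 := by
    refine pi2_sq cst _ _ (cst e) ?_ ?_
    · rcases he with he | he
      · exact Or.inl (by rw [he, map_one])
      · exact Or.inr (by rw [he, map_neg, map_one])
    · rw [hg, Units.val_mul, Units.val_mul, Units.val_mul, coe_cu, coe_uz, ux_eq, ux_eq, h1,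
        Units.val_mk0]
      have e1 := z_eq w
      rw [← hcst] at e1 ⊢
      have e2 := congrArg cst h2
      rw [map_add, map_mul, map_pow, map_mul, map_ofNat] at e2
      have e3 := congrArg cst hee
      rw [map_mul, map_one] at e3
      rw [map_neg]
      linear_combination -e1 - (toP (FF w) (bb w) (pz (FF w))) * e2 -
        (toP (FF w) (bb w) (pz (FF w))) ^ 2 * e3
  rw [hg, sy_mul_right, sy_mul_right, sy_mul_right, map_add, map_add, map_add, pi2_right,
    add_zero, alt_pi2, zero_add] at h3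
  exact h3

omit [CharZero K] in
theorem half {V : Type*} [AddCommGroup V] [Module ℚ V] {a b c : V} (h : a + b = 0)
    (hc : c = a - b) : a = (2⁻¹ : ℚ) • c ∧ b = (-2⁻¹ : ℚ) • c := by
  have hb : b = -a := by
    rw [eq_neg_iff_add_eq_zero, add_comm]
    exact h
  have h2 : c = (2 : ℚ) • a := by
    rw [hc, hb, sub_neg_eq_add, two_smul]
  constructor
  · rw [h2, smul_smul]
    norm_num
  · rw [h2, smul_smul, hb]
    norm_num

omit [CharZero K] in
/-- `z` and a linear function -/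
theorem pi2_z (hw : w ≠ 0) (m : Fin 4) : ∃ z' ∈ Submodule.span ℚ (Set.range (clE w)),
    pi2 (pcst (FF w) (bb w)) (sy (uz (FF w) (bb w)) (ux (FF w) (bb w) m)) =
      pi2 (pcst (FF w) (bb w)) z' := by
  obtain ⟨v1, v2⟩ := Pool.Agent.TH690.UE.val_unit hw
  have hp := pi2_zx hw 0 1 1 (Or.inl rfl) rfl (by
    rw [mul_one]
    exact v1)
  have hq := pi2_zx hw 2 3 (-1) (Or.inr rfl) rfl (by
    have : (2 : K) * -1 = -2 := by norm_num
    rw [this]
    exact v2)
  have e0 : pi2 (pcst (FF w) (bb w)) (clE w 0) =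
      pi2 (pcst (FF w) (bb w)) (sy (uz (FF w) (bb w)) (ux (FF w) (bb w) 0)) -
        pi2 (pcst (FF w) (bb w)) (sy (uz (FF w) (bb w)) (ux (FF w) (bb w) 1)) := by
    rw [clE_zero, sy_div_right, map_sub]
  have e1 : pi2 (pcst (FF w) (bb w)) (clE w 1) =
      pi2 (pcst (FF w) (bb w)) (sy (uz (FF w) (bb w)) (ux (FF w) (bb w) 2)) -
        pi2 (pcst (FF w) (bb w)) (sy (uz (FF w) (bb w)) (ux (FF w) (bb w) 3)) := by
    rw [clE_one, sy_div_right, map_sub]
  obtain ⟨a0, a1⟩ := half hp e0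
  obtain ⟨a2, a3⟩ := half hq e1
  have m0 : ∀ q : ℚ, q • clE w 0 ∈ Submodule.span ℚ (Set.range (clE w)) := fun q =>
    Submodule.smul_mem _ _ (Submodule.subset_span ⟨0, rfl⟩)
  have m1 : ∀ q : ℚ, q • clE w 1 ∈ Submodule.span ℚ (Set.range (clE w)) := fun q =>
    Submodule.smul_mem _ _ (Submodule.subset_span ⟨1, rfl⟩)
  fin_cases m
  · exact ⟨_, m0 _, by rw [map_smul]; exact a0⟩
  · exact ⟨_, m0 _, by rw [map_smul]; exact a1⟩
  · exact ⟨_, m1 _, by rw [map_smul]; exact a2⟩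
  · exact ⟨_, m1 _, by rw [map_smul]; exact a3⟩

theorem red_E (hw : w ≠ 0) (hw1 : w ^ 2 ≠ 1) (i j : Option (Fin 4)) :
    sy (gensE w i) (gensE w j) ∈ Submodule.span ℚ (Set.range (clE w)) ⊔
      (C1 (pcst (FF w) (bb w)) (LinearMap.id : KQ (POpen (FF w) (bb w)) 2 →ₗ[ℚ] _) ⊔
        AA (POpen (FF w) (bb w))) := by
  rcases i with _ | i <;> rcases j with _ | j
  · exact (le_sup_right : MM (pcst (FF w) (bb w)) ≤ _)
      ((le_sup_right : AA (POpen (FF w) (bb w)) ≤ _) (Submodule.subset_span ⟨_, rfl⟩))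
  · obtain ⟨z', h1, h2⟩ := pi2_z hw j
    exact mem_of_pi2 _ h1 h2
  · obtain ⟨z', h1, h2⟩ := pi2_z hw i
    refine mem_of_pi2 (z' := -z') _ (Submodule.neg_mem _ h1) ?_
    rw [map_neg, ← h2, ← (alt_pi2 _).swap]
    rfl
  · refine mem_of_pi2 (z' := 0) _ (Submodule.zero_mem _) ?_
    rw [map_zero]
    by_cases hij : i = j
    · subst hij
      exact alt_pi2 _ _
    · exact pi2_xx hw hw1 hij

end Pool.Agent.X232.CF.E
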