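import Pool.Agent.TH690.UE.Final
import Pool.Agent.X232.CF.Fin
set_option autoImplicit false

/-!
The coordinate ring of the open part of the curve `z + 1/z = w x² - w - 1/w`: domain, elements
divide polynomials in one coordinate.
-/

namespace Pool.Agent.X232.CF.E

open Polynomial

open Pool.Agent.TH826.HD

open Pool.Agent.TH690.UE (qf pts)

section gen

variable {K : Type*} [Field K] {F : K[X]} {n : ℕ} {b : Fin n → K}

theorem isDomain_POpen (hF : 0 < F.natDegree) : IsDomain (POpen F b) := by
  have hdom : IsDomain (PRing F) := isDomain_PRing hF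
  have h1 : IsDomain (Localization.Away (pDel F b)) :=
    IsLocalization.isDomain_localization (powers_le_nonZeroDivisors_of_noZeroDivisors
      (pDel_ne_zero b))
  have e : Localization.Away (pDel F b) ≃ₐ[PRing F] AdjoinRoot (C (pDel F b) * X - 1) :=
    Localization.awayEquivAdjoin (pDel F b)
  exact e.symm.toMulEquiv.isDomain _

theorem toP_injective (hF : 0 < F.natDegree) : Function.Injective (toP F b) := by
  have hdom : IsDomain (PRing F) := isDomain_PRing hF
  let L := FractionRing (PRing F)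
  have hinj : Function.Injective (algebraMap (PRing F) L) := IsFractionRing.injective _ _
  have hne : algebraMap (PRing F) L (pDel F b) ≠ 0 := by
    rw [Ne, map_eq_zero_iff _ hinj]
    exact pDel_ne_zero b
  intro x y hxy
  apply hinj
  have h1 := congrArg (liftP (algebraMap (PRing F) L) hne) hxy
  rwa [liftP_toP, liftP_toP] at h1

/-- the quotient map -/
noncomputable def mkO (F : K[X]) (b : Fin n → K) : (PRing F)[X] →+* POpen F b :=
  AdjoinRoot.mk (peqnO F b)

/-- the inverse of the denominator -/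
noncomputable def rtO (F : K[X]) (b : Fin n → K) : POpen F b := AdjoinRoot.root (peqnO F b)

theorem mkO_C (r : PRing F) : mkO F b (C r) = toP F b r := AdjoinRoot.mk_C r

theorem mkO_X : mkO F b X = rtO F b := AdjoinRoot.mk_X

theorem mkO_surj : Function.Surjective (mkO F b) := AdjoinRoot.mk_surjective

theorem pDel_rtO : toP F b (pDel F b) * rtO F b = 1 := by
  have h : mkO F b (peqnO F b) = 0 := AdjoinRoot.mk_self
  unfold peqnO at h
  rw [map_sub, map_mul, map_one, mkO_X, mkO_C, sub_eq_zero] at h
  exact h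

/-- every element has a representation with a denominator -/
theorem exists_rep (f : POpen F b) : ∃ (r : PRing F) (k : ℕ),
    f * toP F b (pDel F b) ^ k = toP F b r := by
  obtain ⟨P, rfl⟩ := mkO_surj f
  induction P using Polynomial.induction_on' with
  | add p q hp hq =>
    obtain ⟨r, k, hr⟩ := hp
    obtain ⟨r', k', hr'⟩ := hq
    refine ⟨r * pDel F b ^ k' + r' * pDel F b ^ k, k + k', ?_⟩
    rw [map_add, map_add, map_mul, map_mul, map_pow, map_pow, ← hr, ← hr']
    ring
  | monomial m r =>
    refine ⟨r, m, ?_⟩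
    rw [← C_mul_X_pow_eq_monomial, map_mul, map_pow, mkO_X, mkO_C]
    calc toP F b r * rtO F b ^ m * toP F b (pDel F b) ^ m =
        toP F b r * (toP F b (pDel F b) * rtO F b) ^ m := by
          rw [mul_pow]; ring
      _ = toP F b r := by rw [pDel_rtO, one_pow, mul_one]

/-- representation by two polynomials -/
theorem exists_pq (r : PRing F) : ∃ p q : K[X], r = ppol F p + ppol F q * pz F := by
  obtain ⟨P, rfl⟩ := AdjoinRoot.mk_surjective (g := peqn F) r
  set mk : K[X][X] →+* PRing F := AdjoinRoot.mk (peqn F) with hmk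
  have mkC : ∀ p : K[X], mk (C p) = ppol F p := fun p => AdjoinRoot.mk_C p
  have mkX : mk X = pz F := AdjoinRoot.mk_X
  have mk0 : mk (peqn F) = 0 := AdjoinRoot.mk_self
  show ∃ p q : K[X], mk P = ppol F p + ppol F q * pz F
  have e1 : mk P = mk (P %ₘ peqn F) := by
    conv_lhs => rw [← modByMonic_add_div P (peqn F)]
    rw [map_add, map_mul, mk0, zero_mul, add_zero]
  rw [e1]
  set Q := P %ₘ peqn F with hQ
  have hd : Q.natDegree < 2 := by
    have h2 := natDegree_modByMonic_lt P (monic_peqn F) (by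
      intro h
      have := natDegree_peqn F
      rw [h, natDegree_one] at this
      exact absurd this (by norm_num))
    rwa [natDegree_peqn] at h2
  have hQe : Q = C (Q.coeff 0) + C (Q.coeff 1) * X := by
    ext1 i
    rw [coeff_add, coeff_C, coeff_C_mul, coeff_X]
    rcases i with _ | _ | i
    · simp
    · simp
    · rw [coeff_eq_zero_of_natDegree_lt (by omega)]
      simp
  refine ⟨Q.coeff 0, Q.coeff 1, ?_⟩
  conv_lhs => rw [hQe]
  rw [map_add, map_mul, mkC, mkC, mkX]

/-- If `x` and `z` are algebraic over the image of `K[X]`, every nonzero function divides a nonzero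
polynomial. -/
theorem exists_dvd_of (hF : 0 < F.natDegree) (φ : K[X] →+* POpen F b)
    (hC : ∀ c, φ (C c) = pcst F b c)
    (hx : ∃ P : K[X][X], P ≠ 0 ∧ P.eval₂ φ (toP F b (ppol F X)) = 0)
    (hz : ∃ P : K[X][X], P ≠ 0 ∧ P.eval₂ φ (toP F b (pz F)) = 0)
    {f : POpen F b} (hf : f ≠ 0) : ∃ c : K[X], c ≠ 0 ∧ f ∣ φ c := by
  have hdom : IsDomain (POpen F b) := isDomain_POpen hF
  let _ : Algebra K[X] (POpen F b) := φ.toAlgebra
  have hmap : ∀ p : K[X], algebraMap K[X] (POpen F b) p = φ p := fun p => rfl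
  have hev : ∀ (P : K[X][X]) (a : POpen F b), aeval a P = P.eval₂ φ a := fun P a => rfl
  have ax : IsAlgebraic K[X] (toP F b (ppol F X)) := by
    obtain ⟨P, h1, h2⟩ := hx
    exact ⟨P, h1, by rw [hev]; exact h2⟩
  have az : IsAlgebraic K[X] (toP F b (pz F)) := by
    obtain ⟨P, h1, h2⟩ := hz
    exact ⟨P, h1, by rw [hev]; exact h2⟩
  have ac : ∀ c : K, IsAlgebraic K[X] (pcst F b c) := fun c => by
    rw [← hC, ← hmap]
    exact isAlgebraic_algebraMap _
  have ap : ∀ p : K[X], IsAlgebraic K[X] (toP F b (ppol F p)) := by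
    intro p
    induction p using Polynomial.induction_on' with
    | add p q hp hq => rw [map_add, map_add]; exact hp.add hq
    | monomial m c =>
      rw [← C_mul_X_pow_eq_monomial, map_mul, map_mul, map_pow, map_pow]
      exact (ac c).mul (ax.pow m)
  have ar : ∀ r : PRing F, IsAlgebraic K[X] (toP F b r) := by
    intro r
    obtain ⟨p, q, rfl⟩ := exists_pq r
    rw [map_add, map_mul]
    exact (ap p).add ((ap q).mul az)
  obtain ⟨r, k, hr⟩ := exists_rep f
  have hr0 : toP F b r ≠ 0 := by
    rw [← hr]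
    refine mul_ne_zero hf (pow_ne_zero _ ?_)
    exact (isUnit_pDel F b).ne_zero
  obtain ⟨c, hc, h⟩ := (ar r).exists_nonzero_dvd (mem_nonZeroDivisors_of_ne_zero hr0)
  refine ⟨c, hc, ?_⟩
  rw [← hmap]
  refine dvd_trans ⟨_, hr.symm⟩ h

/-- every nonzero function divides a nonzero polynomial in `x` -/
theorem exists_dvd_x (hF : 0 < F.natDegree) {f : POpen F b} (hf : f ≠ 0) :
    ∃ c : K[X], c ≠ 0 ∧ f ∣ toP F b (ppol F c) := by
  refine exists_dvd_of hF ((toP F b).comp (ppol F)) (fun c => rfl) ⟨X - C X, ?_, ?_⟩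
    ⟨peqn F, (monic_peqn F).ne_zero, ?_⟩ hf
  · exact X_sub_C_ne_zero _
  · simp
  · have h := congrArg (toP F b) (pz_eq F)
    rw [map_zero, map_add, map_sub, map_mul, map_pow, map_one] at h
    unfold peqn
    simp only [eval₂_add, eval₂_sub, eval₂_mul, eval₂_X, eval₂_C, eval₂_one, eval₂_X_pow]
    exact h

end gen

section quad

variable {K : Type*} [Field K] {w t : K} {n : ℕ} {b : Fin n → K}

/-- polynomials in `z` -/
noncomputable def zpol (F : K[X]) (b : Fin n → K) : K[X] →+* POpen F b :=
  eval₂RingHom (pcst F b) (toP F b (pz F))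

theorem zpol_X (F : K[X]) (b : Fin n → K) : zpol F b X = toP F b (pz F) := by
  unfold zpol
  simp

theorem zpol_C (F : K[X]) (b : Fin n → K) (c : K) : zpol F b (C c) = pcst F b c := by
  unfold zpol
  simp

/-- every nonzero function divides a nonzero polynomial in `z` -/
theorem exists_dvd_z (hw : w ≠ 0) {f : POpen (qf w t) b} (hf : f ≠ 0) :
    ∃ c : K[X], c ≠ 0 ∧ f ∣ zpol (qf w t) b c := by
  have hF : 0 < (qf w t).natDegree := by
    rw [Pool.Agent.TH690.UE.natDegree_qf hw]
    norm_num
  set A1 : K[X] := C w * X with hA1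
  set B1 : K[X] := X ^ 2 - C t * X + 1 with hB1
  refine exists_dvd_of hF (zpol (qf w t) b) (fun c => zpol_C _ _ c)
    ⟨C A1 * X ^ 2 - C B1, ?_, ?_⟩ ⟨X - C X, X_sub_C_ne_zero _, ?_⟩ hf
  · intro h
    have h1 := congrArg (fun P : K[X][X] => P.coeff 2) h
    simp only [coeff_sub, coeff_C_mul, coeff_X_pow, coeff_C, coeff_zero] at h1
    norm_num at h1
    have h2 : C w * X = (0 : K[X]) := h1
    rw [mul_eq_zero, C_eq_zero] at h2
    exact h2.elim hw X_ne_zero
  · have h := congrArg (toP (qf w t) b) (pz_eq (qf w t))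
    rw [map_zero, map_add, map_sub, map_mul, map_pow, map_one] at h
    have e : toP (qf w t) b (ppol (qf w t) (qf w t)) = pcst (qf w t) b w *
        toP (qf w t) b (ppol (qf w t) X) ^ 2 + pcst (qf w t) b t := by
      conv_lhs => rw [show ppol (qf w t) (qf w t) = ppol (qf w t) (C w * X ^ 2 + C t) from rfl]
      rw [map_add, map_mul, map_pow, map_add, map_mul, map_pow]
      rfl
    rw [e] at h
    have e1 : zpol (qf w t) b A1 = pcst (qf w t) b w * toP (qf w t) b (pz (qf w t)) := by
      rw [hA1, map_mul, zpol_X, zpol_C]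
    have e2 : zpol (qf w t) b B1 = toP (qf w t) b (pz (qf w t)) ^ 2 -
        pcst (qf w t) b t * toP (qf w t) b (pz (qf w t)) + 1 := by
      rw [hB1, map_add, map_sub, map_mul, map_pow, map_one, zpol_X, zpol_C]
    rw [eval₂_sub, eval₂_mul, eval₂_X_pow, eval₂_C, eval₂_C, e1, e2]
    linear_combination -h
  · simp [zpol_X]

end quad

end Pool.Agent.X232.CF.E
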