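import Pool.Agent.X232.CF.E.Ord
set_option autoImplicit false

/-!
The units of the open part of the curve `z + 1/z = w x² - w - 1/w`, up to finite index.
-/

namespace Pool.Agent.X232.CF.E

open Polynomial

open Pool.Agent.TH826.HD

open Pool.Agent.TH690.UE (qf pts)

open Pool.Agent.X232.CU (exists_root od_coe ti ti_ne_zero order_ti ti_eq od od_mul)

section ord

variable {K : Type*} [Field K] {A : Type*} [CommRing A] (φ : A →+* HahnSeries ℤ K)

/-- the order as a homomorphism -/
noncomputable def oM : Aˣ →* Multiplicative ℤ :=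
  MonoidHom.mk' (fun f => Multiplicative.ofAdd (od (Units.map (φ : A →* HahnSeries ℤ K) f)))
    (fun f g => by rw [map_mul, od_mul]; rfl)

theorem oM_eq (f : Aˣ) : (φ (f : A)).order = Multiplicative.toAdd (oM φ f) := rfl

theorem ord_mul (f g : Aˣ) : (φ ((f * g : Aˣ) : A)).order = (φ (f : A)).order +
    (φ (g : A)).order := by
  rw [oM_eq, oM_eq, oM_eq, map_mul, toAdd_mul]

theorem ord_zpow (f : Aˣ) (n : ℤ) : (φ ((f ^ n : Aˣ) : A)).order = n * (φ (f : A)).order := by
  rw [oM_eq, oM_eq, map_zpow, toAdd_zpow, smul_eq_mul]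

theorem ord_pow (f : Aˣ) (n : ℕ) : (φ ((f ^ n : Aˣ) : A)).order = n * (φ (f : A)).order := by
  rw [oM_eq, oM_eq, map_pow, toAdd_pow]
  simp

theorem ord_inv (f : Aˣ) : (φ ((f⁻¹ : Aˣ) : A)).order = -(φ (f : A)).order := by
  rw [oM_eq, oM_eq, map_inv, toAdd_inv]

theorem ord_prod {ι : Type*} (s : Finset ι) (f : ι → Aˣ) :
    (φ ((∏ i ∈ s, f i : Aˣ) : A)).order = ∑ i ∈ s, (φ (f i : A)).order := by
  rw [oM_eq, map_prod, toAdd_prod]
  rfl

theorem X2_dvd_of_order {s : PowerSeries K} (h : 2 ≤ (PS K s).order) :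
    (PowerSeries.X : PowerSeries K) ^ 2 ∣ s := by
  rw [PowerSeries.X_pow_dvd_iff]
  intro m hm
  rw [← HahnSeries.ofPowerSeries_apply_coeff (Γ := ℤ)]
  exact HahnSeries.coeff_eq_zero_of_lt_order (lt_of_lt_of_le (by exact_mod_cast hm) h)

theorem order_sub_nonneg {x y : HahnSeries ℤ K} (hx : 0 ≤ x.order) (hy : 0 ≤ y.order)
    (h : x - y ≠ 0) : 0 ≤ (x - y).order := by
  rw [sub_eq_add_neg] at h ⊢
  have h1 := HahnSeries.min_order_le_order_add h
  rw [HahnSeries.order_neg] at h1
  exact (le_min hx hy).trans h1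

end ord

variable {K : Type*} [Field K] [CharZero K] {w : K} (hw : w ≠ 0) (hw1 : w ^ 2 ≠ 1)

/-- the series of a function without a denominator -/
noncomputable def sr (i : Fin 4) (p q : K[X]) : PowerSeries K :=
  p.eval₂ PowerSeries.C (xi hw hw1 i) +
    q.eval₂ PowerSeries.C (xi hw hw1 i) * (PowerSeries.C (ep K i) + PowerSeries.X)

theorem pT_pq (i : Fin 4) (p q : K[X]) :
    pT hw hw1 i (toP (FF w) (bb w) (ppol (FF w) p + ppol (FF w) q * pz (FF w))) =
      PS K (sr hw hw1 i p q) := by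
  have e1 : ∀ p : K[X], pT hw hw1 i (toP (FF w) (bb w) (ppol (FF w) p)) =
      PS K (p.eval₂ PowerSeries.C (xi hw hw1 i)) := fun p =>
    (mkPl_ppol _ _ _ _ p).trans (eval₂_PS p _)
  have e2 : pT hw hw1 i (toP (FF w) (bb w) (pz (FF w))) =
      PS K (PowerSeries.C (ep K i) + PowerSeries.X) := mkPl_pz _ _ _ _
  rw [map_add, map_mul, map_add, map_mul, e1, e1, e2, ← map_mul, ← map_add]
  rfl

theorem X2_dvd_xi (i : Fin 4) :
    (PowerSeries.X : PowerSeries K) ^ 2 ∣ xi hw hw1 i - PowerSeries.C (bb w i) := by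
  have h1 := xi_eq hw hw1 i
  have c2 : PowerSeries.constantCoeff (xi hw hw1 i + PowerSeries.C (bb w i)) ≠ 0 := by
    rw [map_add, xi_const, PowerSeries.constantCoeff_C, ← two_mul]
    exact mul_ne_zero two_ne_zero (bb_ne hw1 i)
  have c3 : PowerSeries.constantCoeff
      (PowerSeries.C w * (PowerSeries.C (ep K i) + PowerSeries.X)) ≠ 0 := by
    rw [map_mul, ep_const, PowerSeries.constantCoeff_C]
    exact mul_ne_zero hw (ep_ne i)
  have u : IsUnit ((xi hw hw1 i + PowerSeries.C (bb w i)) *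
      (PowerSeries.C w * (PowerSeries.C (ep K i) + PowerSeries.X))) := by
    rw [PowerSeries.isUnit_iff_constantCoeff, isUnit_iff_ne_zero, map_mul]
    exact mul_ne_zero c2 c3
  rw [mul_assoc] at h1
  exact u.dvd_mul_right.1 (by rw [h1])

theorem X2_dvd_eval (i : Fin 4) (p : K[X]) : (PowerSeries.X : PowerSeries K) ^ 2 ∣
    p.eval₂ PowerSeries.C (xi hw hw1 i) - PowerSeries.C (p.eval (bb w i)) := by
  refine (X2_dvd_xi hw hw1 i).trans ?_
  have h1 := sub_dvd_eval_sub (xi hw hw1 i) (PowerSeries.C (bb w i)) (p.map PowerSeries.C)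
  rwa [eval_map, eval_map, eval₂_at_apply] at h1

theorem pq_zero (i : Fin 4) (p q : K[X])
    (h : (PowerSeries.X : PowerSeries K) ^ 2 ∣ sr hw hw1 i p q) :
    p.eval (bb w i) = 0 ∧ q.eval (bb w i) = 0 := by
  have h1 := X2_dvd_eval hw hw1 i p
  have h2 := (X2_dvd_eval hw hw1 i q).mul_right (PowerSeries.C (ep K i) + PowerSeries.X)
  have h3 := dvd_sub h (dvd_add h1 h2)
  have e : sr hw hw1 i p q - (p.eval₂ PowerSeries.C (xi hw hw1 i) -
      PowerSeries.C (p.eval (bb w i)) + (q.eval₂ PowerSeries.C (xi hw hw1 i) -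
      PowerSeries.C (q.eval (bb w i))) * (PowerSeries.C (ep K i) + PowerSeries.X)) =
      PowerSeries.C (p.eval (bb w i)) + PowerSeries.C (q.eval (bb w i)) *
        (PowerSeries.C (ep K i) + PowerSeries.X) := by
    unfold sr
    ring
  rw [e, PowerSeries.X_pow_dvd_iff] at h3
  have h4 := h3 0 (by norm_num)
  have h5 := h3 1 (by norm_num)
  have h6 : q.eval (bb w i) = 0 := by
    rw [map_add, PowerSeries.coeff_C_mul, map_add, PowerSeries.coeff_C, PowerSeries.coeff_C,
      PowerSeries.coeff_one_X] at h5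
    simpa using h5
  refine ⟨?_, h6⟩
  rw [h6] at h4
  simpa using h4

theorem coe_prod_ux : ((∏ m, ux (FF w) (bb w) m : (POpen (FF w) (bb w))ˣ) :
    POpen (FF w) (bb w)) = toP (FF w) (bb w) (pDel (FF w) (bb w)) := by
  rw [Units.coe_prod]
  unfold pDel
  rw [map_prod, map_prod]
  exact Finset.prod_congr rfl fun m _ => coe_ux _ _ m

theorem pT_Del (i : Fin 4) :
    (pT hw hw1 i (toP (FF w) (bb w) (pDel (FF w) (bb w)))).order = 2 := by
  rw [← coe_prod_ux, ord_prod, Finset.sum_eq_single i]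
  · exact pT_ux hw hw1 i
  · intro m _ hm
    exact pT_ux_ne hw hw1 hm
  · intro h
    exact absurd (Finset.mem_univ i) h

theorem pT_ne (i : Fin 4) {f : POpen (FF w) (bb w)} (hf : f ≠ 0) : pT hw hw1 i f ≠ 0 := by
  rw [Ne, map_eq_zero_iff _ (pT_inj hw hw1 i)]
  exact hf

theorem no_denom (k : ℕ) {f : POpen (FF w) (bb w)} (hf : f ≠ 0)
    (hT : ∀ i, 0 ≤ (pT hw hw1 i f).order)
    (hk : ∃ r, f * toP (FF w) (bb w) (pDel (FF w) (bb w)) ^ k = toP (FF w) (bb w) r) :
    ∃ r, f = toP (FF w) (bb w) r := by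
  have hu : IsUnit (toP (FF w) (bb w) (pDel (FF w) (bb w))) := isUnit_pDel _ _
  have hdom : IsDomain (POpen (FF w) (bb w)) := isDomain_POpen (pos_FF hw)
  induction k with
  | zero =>
    obtain ⟨r, hr⟩ := hk
    exact ⟨r, by rw [← hr, pow_zero, mul_one]⟩
  | succ k ih =>
    refine ih ?_
    obtain ⟨r, hr⟩ := hk
    obtain ⟨p, q, rfl⟩ := exists_pq r
    have hroot : ∀ i, p.eval (bb w i) = 0 ∧ q.eval (bb w i) = 0 := by
      intro i
      refine pq_zero hw hw1 i p q (X2_dvd_of_order ?_)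
      rw [← pT_pq, ← hr, map_mul, map_pow, HahnSeries.order_mul (pT_ne hw hw1 i hf)
        (pow_ne_zero _ (pT_ne hw hw1 i hu.ne_zero)), HahnSeries.order_pow, pT_Del]
      have := hT i
      simp only [nsmul_eq_mul]
      push_cast
      nlinarith
    have hdvd : ∀ p : K[X], (∀ i, p.eval (bb w i) = 0) → (∏ m, (X - C (bb w m))) ∣ p := by
      intro p hp
      refine Finset.prod_dvd_of_coprime ?_ fun i _ => dvd_iff_isRoot.2 (hp i)
      intro i _ j _ hij
      exact isCoprime_X_sub_C_of_isUnit_sub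
        (sub_ne_zero_of_ne ((bb_inj hw hw1).ne hij)).isUnit
    obtain ⟨p', rfl⟩ := hdvd p fun i => (hroot i).1
    obtain ⟨q', rfl⟩ := hdvd q fun i => (hroot i).2
    refine ⟨ppol (FF w) p' + ppol (FF w) q' * pz (FF w), ?_⟩
    refine hu.mul_right_cancel ?_
    rw [mul_assoc, ← pow_succ, hr]
    unfold pDel
    simp only [map_mul, map_add]
    ring

theorem order_zs_sub : (zs hw true - zs hw false).order = -2 := by
  have e : zs hw true - zs hw false = ti K ^ 2 * PS K (2 * zt hw - PowerSeries.C w -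
      PowerSeries.C (tt w) * PowerSeries.X ^ 2) := by
    have h2 : ti K ^ 2 * PS K PowerSeries.X ^ 2 = 1 := by rw [← mul_pow, ti_X, one_pow]
    unfold zs
    rw [if_pos rfl, if_neg (by decide)]
    unfold zi
    rw [map_sub, map_sub, map_mul, map_mul, map_pow, PS_C, PS_C]
    have h3 : PS K 2 = 2 := map_ofNat _ 2
    rw [h3]
    linear_combination (HahnSeries.C (tt w)) * h2
  have hc : PowerSeries.constantCoeff (2 * zt hw - PowerSeries.C w -
      PowerSeries.C (tt w) * PowerSeries.X ^ 2) = w := by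
    have h3 : PowerSeries.constantCoeff (2 : PowerSeries K) = 2 := map_ofNat _ 2
    rw [map_sub, map_sub, map_mul, map_mul, map_pow, h3, zt_const, PowerSeries.constantCoeff_C,
      PowerSeries.constantCoeff_X]
    ring
  have hc' : PowerSeries.constantCoeff (2 * zt hw - PowerSeries.C w -
      PowerSeries.C (tt w) * PowerSeries.X ^ 2) ≠ 0 := by rwa [hc]
  rw [e, HahnSeries.order_mul (pow_ne_zero _ ti_ne_zero) (PS_ne hc'), od_coe hc',
    HahnSeries.order_pow, order_ti]
  norm_num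

theorem pI_pq (s : Bool) (p q : K[X]) :
    pI hw s (toP (FF w) (bb w) (ppol (FF w) p + ppol (FF w) q * pz (FF w))) =
      p.eval₂ HahnSeries.C (ti K) + q.eval₂ HahnSeries.C (ti K) * zs hw s := by
  unfold pI
  rw [map_add, map_mul, map_add, map_mul, mkPl_ppol, mkPl_ppol, mkPl_pz]

/-- functions without poles are constant -/
theorem const_of_order {f : POpen (FF w) (bb w)} (hf : f ≠ 0)
    (hT : ∀ i, 0 ≤ (pT hw hw1 i f).order) (hI : ∀ s, 0 ≤ (pI hw s f).order) :
    ∃ c, f = pcst (FF w) (bb w) c := by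
  obtain ⟨r, k, hr⟩ := exists_rep f
  obtain ⟨r, rfl⟩ := no_denom hw hw1 k hf hT ⟨r, hr⟩
  obtain ⟨p, q, rfl⟩ := exists_pq r
  have hq : q = 0 := by
    by_contra hq
    have h1 := hI true
    have h2 := hI false
    rw [pI_pq] at h1 h2
    have hz : zs hw true - zs hw false ≠ 0 := by
      intro h
      have := order_zs_sub hw
      rw [h, HahnSeries.order_zero] at this
      exact absurd this (by norm_num)
    have e : p.eval₂ HahnSeries.C (ti K) + q.eval₂ HahnSeries.C (ti K) * zs hw true -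
        (p.eval₂ HahnSeries.C (ti K) + q.eval₂ HahnSeries.C (ti K) * zs hw false) =
        q.eval₂ HahnSeries.C (ti K) * (zs hw true - zs hw false) := by ring
    have h3 := order_sub_nonneg h1 h2 (by rw [e]; exact mul_ne_zero (eval_ti_ne hq) hz)
    rw [e, HahnSeries.order_mul (eval_ti_ne hq) hz, order_eval_ti hq, order_zs_sub] at h3
    omega
  subst hq
  have hp : p ≠ 0 := by
    rintro rfl
    apply hf
    simp
  have h1 := hI true
  rw [pI_pq, eval₂_zero, zero_mul, add_zero, order_eval_ti hp] at h1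
  have h2 : p.natDegree = 0 := by omega
  refine ⟨p.coeff 0, ?_⟩
  rw [map_zero, zero_mul, add_zero]
  conv_lhs => rw [eq_C_of_natDegree_eq_zero h2]
  rfl

/-- the generators -/
noncomputable def gensE (w : K) : Option (Fin 4) → (POpen (FF w) (bb w))ˣ :=
  fun j => j.elim (uz (FF w) (bb w)) (ux (FF w) (bb w))

theorem const_unit {g : (POpen (FF w) (bb w))ˣ}
    (hT : ∀ i, 0 ≤ (pT hw hw1 i (g : POpen (FF w) (bb w))).order)
    (hI : ∀ s, 0 ≤ (pI hw s (g : POpen (FF w) (bb w))).order) :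
    ∃ c : Kˣ, g = cu (pcst (FF w) (bb w)) c := by
  have hdom : IsDomain (POpen (FF w) (bb w)) := isDomain_POpen (pos_FF hw)
  obtain ⟨c, hc⟩ := const_of_order hw hw1 g.ne_zero hT hI
  have hc0 : c ≠ 0 := by
    rintro rfl
    rw [map_zero] at hc
    exact g.ne_zero hc
  exact ⟨Units.mk0 c hc0, Units.ext hc⟩

include hw hw1 in
/-- the units -/
theorem units_E (f : (POpen (FF w) (bb w))ˣ) : ∃ (N : ℕ) (n : Option (Fin 4) → ℤ) (c : Kˣ), 0 < N ∧
    f ^ N = cu (pcst (FF w) (bb w)) c * ∏ j, gensE w j ^ n j := by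
  set o : Fin 4 → ℤ := fun i => (pT hw hw1 i (f : POpen (FF w) (bb w))).order with ho
  set k : ℤ := (pI hw true (f : POpen (FF w) (bb w))).order -
    (pI hw false (f : POpen (FF w) (bb w))).order with hk
  set n : Option (Fin 4) → ℤ := fun j => j.elim (-k) (fun i => 2 * o i) with hn
  set g : (POpen (FF w) (bb w))ˣ := f ^ 4 * (∏ j, gensE w j ^ n j)⁻¹ with hg
  have hprod : (∏ j, gensE w j ^ n j) = uz (FF w) (bb w) ^ (-k) *
      ∏ i, ux (FF w) (bb w) i ^ (2 * o i) := by
    rw [Fintype.prod_option]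
    rfl
  have hordT : ∀ i, (pT hw hw1 i (g : POpen (FF w) (bb w))).order = 0 := by
    intro i
    rw [hg, ord_mul, ord_inv, hprod, ord_mul, ord_zpow, ord_prod, ord_pow, pT_uz,
      Finset.sum_eq_single i]
    · rw [ord_zpow, pT_ux]
      push_cast
      ring
    · intro m _ hm
      rw [ord_zpow, pT_ux_ne hw hw1 hm, mul_zero]
    · intro h
      exact absurd (Finset.mem_univ i) h
  have hordI : ∀ s, (pI hw s (g : POpen (FF w) (bb w))).order =
      2 * (pI hw true (f : POpen (FF w) (bb w))).order +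
        2 * (pI hw false (f : POpen (FF w) (bb w))).order + ∑ i, 2 * o i := by
    intro s
    rw [hg, ord_mul, ord_inv, hprod, ord_mul, ord_zpow, ord_prod, ord_pow, pI_uz]
    have e1 : ∑ i, (pI hw s ((ux (FF w) (bb w) i ^ (2 * o i) : (POpen (FF w) (bb w))ˣ) :
        POpen (FF w) (bb w))).order = -∑ i, 2 * o i := by
      rw [← Finset.sum_neg_distrib]
      refine Finset.sum_congr rfl fun i _ => ?_
      rw [ord_zpow, pI_ux]
      ring
    rw [e1]
    cases s
    · rw [if_neg (by decide), hk]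
      push_cast
      ring
    · rw [if_pos rfl, hk]
      push_cast
      ring
  have hfin : ∃ c : Kˣ, g = cu (pcst (FF w) (bb w)) c := by
    rcases le_total 0 (2 * (pI hw true (f : POpen (FF w) (bb w))).order +
        2 * (pI hw false (f : POpen (FF w) (bb w))).order + ∑ i, 2 * o i) with hS | hS
    · exact const_unit hw hw1 (fun i => (hordT i).ge) fun s => by rw [hordI]; exact hS
    · obtain ⟨c, hc⟩ := const_unit hw hw1 (g := g⁻¹) (fun i => by rw [ord_inv, hordT]; simp)
        fun s => by rw [ord_inv, hordI]; omega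
      exact ⟨c⁻¹, by rw [map_inv, ← hc, inv_inv]⟩
  obtain ⟨c, hc⟩ := hfin
  refine ⟨4, n, c, by norm_num, ?_⟩
  rw [← hc, hg, inv_mul_cancel_right]

theorem rank_E (v : Option (Fin 4) → ℚ)
    (h : ∀ P, ∑ j, ((plE hw hw1 P (gensE w j : POpen (FF w) (bb w))).order : ℚ) * v j = 0) :
    v = 0 := by
  have h1 : ∀ i, v (some i) = 0 := by
    intro i
    have h2 := h (Sum.inl i)
    rw [Fintype.sum_option] at h2
    have e0 : (plE hw hw1 (Sum.inl i) (gensE w none : POpen (FF w) (bb w))).order = 0 :=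
      pT_uz hw hw1 i
    have e1 : ∀ m, (plE hw hw1 (Sum.inl i) (gensE w (some m) : POpen (FF w) (bb w))).order =
        if m = i then 2 else 0 := by
      intro m
      by_cases hm : m = i
      · subst hm
        rw [if_pos rfl]
        exact pT_ux hw hw1 m
      · rw [if_neg hm]
        exact pT_ux_ne hw hw1 hm
    rw [e0] at h2
    simp only [e1] at h2
    rw [Finset.sum_eq_single i] at h2
    · rw [if_pos rfl] at h2
      push_cast at h2
      linarith
    · intro m _ hm
      rw [if_neg hm]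
      simp
    · intro h
      exact absurd (Finset.mem_univ i) h
  have h3 := h (Sum.inr true)
  rw [Fintype.sum_option] at h3
  simp only [h1, mul_zero, Finset.sum_const_zero, add_zero] at h3
  have e0 : (plE hw hw1 (Sum.inr true) (gensE w none : POpen (FF w) (bb w))).order = -2 :=
    (pI_uz hw true).trans (if_pos rfl)
  rw [e0] at h3
  push_cast at h3
  funext j
  rcases j with _ | i
  · rw [Pi.zero_apply]
    linarith
  · exact h1 i

theorem unif_E (P : Fin 4 ⊕ Bool) : ∃ a, (plE hw hw1 P a).order = 1 ∨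
    (plE hw hw1 P a).order = -1 := by
  rcases P with i | s
  · exact ⟨_, Or.inl (pT_unif hw hw1 i)⟩
  · exact ⟨_, Or.inr (pI_ux hw s 0)⟩

theorem inj_E (P : Fin 4 ⊕ Bool) : Function.Injective (plE hw hw1 P) := by
  rcases P with i | s
  · exact pT_inj hw hw1 i
  · exact pI_inj hw s

theorem cst_E (P : Fin 4 ⊕ Bool) (c : K) : plE hw hw1 P (pcst (FF w) (bb w) c) =
    HahnSeries.C c := by
  rcases P with i | s
  · exact mkPl_cst _ _ (pt_eq hw hw1 i) (pt_ne hw hw1 i) c
  · exact mkPl_cst _ _ (zs_eq hw s) (fun _ => ti_sub_ne _) c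

end Pool.Agent.X232.CF.E
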